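import Mathlib

/-!
# The shadow of a polynomial: bounds for logarithmic derivatives
-/

set_option autoImplicit false

open Polynomial Filter Topology Metric

namespace Q73.Shadow

/-- The polynomials `Q_{n,m} = (P^n)^{(m)}`. -/
noncomputable def Q (P : ℂ[X]) (n m : ℕ) : ℂ[X] := derivative^[m] (P ^ n)

theorem Q_zero (P : ℂ[X]) (n : ℕ) : Q P n 0 = P ^ n := rfl

theorem Q_succ (P : ℂ[X]) (n m : ℕ) : Q P n (m + 1) = derivative (Q P n m) := by
  unfold Q
  rw [Function.iterate_succ_apply']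

theorem natDegree_Q (P : ℂ[X]) (n m : ℕ) : (Q P n m).natDegree ≤ n * P.natDegree - m := by
  unfold Q
  refine (natDegree_iterate_derivative _ _).trans ?_
  rw [natDegree_pow]

/-- logarithmic derivative bound -/
theorem norm_derivative_le {q : ℂ[X]} {w : ℂ} {s : ℝ} (hs : 0 < s)
    (h : ∀ z ∈ ball w s, q.eval z ≠ 0) :
    ‖(derivative q).eval w‖ ≤ (q.natDegree : ℝ) / s * ‖q.eval w‖ := by
  have hw : q.eval w ≠ 0 := h w (mem_ball_self hs)
  have hq : q ≠ 0 := by
    rintro rfl
    simp at hw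
  rw [(IsAlgClosed.splits q).eval_derivative_eq_eval_mul_sum hw, norm_mul, mul_comm]
  refine mul_le_mul_of_nonneg_right ?_ (norm_nonneg _)
  have h1 : ‖(q.roots.map fun z ↦ 1 / (w - z)).sum‖ ≤
      (q.roots.map fun _ => (1 / s : ℝ)).sum := by
    refine (Multiset.le_sum_of_subadditive (fun z : ℂ => ‖z‖) norm_zero.le norm_add_le _).trans ?_
    rw [Multiset.map_map]
    refine Multiset.sum_map_le_sum_map _ _ ?_
    intro z hz
    have hz' : q.eval z = 0 := (mem_roots hq).1 hz
    have hz2 : s ≤ ‖w - z‖ := by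
      by_contra hc
      exact h z (by rw [mem_ball, dist_comm, dist_eq_norm]; exact not_le.1 hc) hz'
    simp only [Function.comp_apply, norm_div, norm_one]
    exact one_div_le_one_div_of_le hs hz2
  refine h1.trans ?_
  rw [Multiset.map_const', Multiset.sum_replicate, nsmul_eq_mul, mul_one_div]
  have h2 : (Multiset.card q.roots : ℝ) ≤ q.natDegree := by exact_mod_cast card_roots' q
  exact div_le_div_of_nonneg_right h2 hs.le

/-! ### A point outside the shadow -/

/-- There are no zeros of `Q_{n,m}` in the disc. -/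
def Free (P : ℂ[X]) (u : ℂ) (ρ : ℝ) : Prop :=
  ∀ n m : ℕ, 1 ≤ n → m ≤ n * P.natDegree → ∀ z ∈ ball u ρ, (Q P n m).eval z ≠ 0

/-- the ratios -/
noncomputable def rr (P : ℂ[X]) (u : ℂ) (n m : ℕ) : ℂ :=
  (Q P n (m + 1)).eval u / (n * (Q P n m).eval u)

section
variable {P : ℂ[X]} {u : ℂ} {ρ : ℝ}

theorem Free.eval_ne (h : Free P u ρ) (hρ : 0 < ρ) {n m : ℕ} (hn : 1 ≤ n)
    (hm : m ≤ n * P.natDegree) : (Q P n m).eval u ≠ 0 := h n m hn hm u (mem_ball_self hρ)

theorem Free.rr_ne (h : Free P u ρ) (hρ : 0 < ρ) {n m : ℕ} (hn : 1 ≤ n)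
    (hm : m < n * P.natDegree) : rr P u n m ≠ 0 := by
  unfold rr
  have hn' : (n : ℂ) ≠ 0 := by exact_mod_cast (by omega : n ≠ 0)
  exact div_ne_zero (h.eval_ne hρ hn hm) (mul_ne_zero hn' (h.eval_ne hρ hn hm.le))

/-- bound for the logarithmic derivative on smaller discs -/
theorem Free.norm_le (h : Free P u ρ) {n m : ℕ} (hn : 1 ≤ n)
    (hm : m ≤ n * P.natDegree) {s : ℝ} (hs : 0 < s) {w : ℂ} (hw : dist w u + s ≤ ρ) :
    ‖(Q P n (m + 1)).eval w‖ ≤ ((n * P.natDegree - m : ℕ) : ℝ) / s * ‖(Q P n m).eval w‖ := by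
  rw [Q_succ]
  have h1 := norm_derivative_le (q := Q P n m) (w := w) hs (fun z hz => h n m hn hm z (by
    rw [mem_ball] at hz ⊢
    calc dist z u ≤ dist z w + dist w u := dist_triangle _ _ _
      _ < s + dist w u := by linarith
      _ ≤ ρ := by linarith))
  refine h1.trans (mul_le_mul_of_nonneg_right ?_ (norm_nonneg _))
  refine div_le_div_of_nonneg_right ?_ hs.le
  exact_mod_cast natDegree_Q P n m

theorem Free.norm_rr_le (h : Free P u ρ) (hρ : 0 < ρ) {n m : ℕ} (hn : 1 ≤ n)
    (hm : m ≤ n * P.natDegree) :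
    ‖rr P u n m‖ ≤ ((n * P.natDegree - m : ℕ) : ℝ) / (n * ρ) := by
  have h1 := h.norm_le hn hm hρ (w := u) (by rw [dist_self]; linarith)
  have h2 : 0 < ‖(Q P n m).eval u‖ := norm_pos_iff.2 (h.eval_ne hρ hn hm)
  have hn' : (0 : ℝ) < n := by exact_mod_cast hn
  unfold rr
  rw [norm_div, norm_mul, Complex.norm_natCast, div_le_iff₀ (by positivity)]
  refine h1.trans (le_of_eq ?_)
  field_simp

/-- the step of the ratios -/
theorem Free.step (h : Free P u ρ) (hρ : 0 < ρ) {n m : ℕ} (hn : 1 ≤ n)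
    (hm : m + 1 < n * P.natDegree) :
    ‖rr P u n (m + 1) - rr P u n m‖ * (n * ‖rr P u n m‖) ≤ 8 * P.natDegree / ρ ^ 2 := by
  have hn' : (0 : ℝ) < n := by exact_mod_cast hn
  have hnc : (n : ℂ) ≠ 0 := by exact_mod_cast (by omega : n ≠ 0)
  set R : ℂ → ℂ := fun w => (Q P n (m + 1)).eval w / (n * (Q P n m).eval w) with hR
  have hball : ∀ w ∈ closedBall u (ρ / 2), (Q P n m).eval w ≠ 0 := fun w hw =>
    h n m hn (by omega) w (by rw [mem_closedBall] at hw; rw [mem_ball]; linarith)
  have hdiff : ∀ w ∈ closedBall u (ρ / 2), DifferentiableAt ℂ R w := by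
    intro w hw
    refine DifferentiableAt.div (Polynomial.differentiable _ _)
      ((differentiableAt_const _).mul (Polynomial.differentiable _ _)) ?_
    exact mul_ne_zero hnc (hball w hw)
  have hcont : DiffContOnCl ℂ R (ball u (ρ / 2)) := by
    refine DifferentiableOn.diffContOnCl ?_
    rw [closure_ball _ (by positivity)]
    exact fun w hw => (hdiff w hw).differentiableWithinAt
  have hbd : ∀ w ∈ sphere u (ρ / 2), ‖R w‖ ≤ 2 * P.natDegree / ρ := by
    intro w hw
    have hw' : w ∈ closedBall u (ρ / 2) := sphere_subset_closedBall hw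
    have h1 := h.norm_le hn (by omega : m ≤ n * P.natDegree) (s := ρ / 2) (by positivity) (w := w)
      (by rw [mem_sphere] at hw; linarith)
    have h2 : 0 < ‖(Q P n m).eval w‖ := norm_pos_iff.2 (hball w hw')
    simp only [hR]
    rw [norm_div, norm_mul, Complex.norm_natCast, div_le_iff₀ (by positivity)]
    refine h1.trans ?_
    have h3 : ((n * P.natDegree - m : ℕ) : ℝ) ≤ n * P.natDegree := by
      have : (n * P.natDegree - m : ℕ) ≤ n * P.natDegree := Nat.sub_le _ _
      exact_mod_cast this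
    calc ((n * P.natDegree - m : ℕ) : ℝ) / (ρ / 2) * ‖(Q P n m).eval w‖
        ≤ (n * P.natDegree : ℝ) / (ρ / 2) * ‖(Q P n m).eval w‖ := by gcongr
      _ = _ := by field_simp
  have hder := Complex.norm_deriv_le_of_forall_mem_sphere_norm_le (by positivity) hcont hbd
  have hu : (Q P n m).eval u ≠ 0 := h.eval_ne hρ hn (by omega)
  have hu1 : (Q P n (m + 1)).eval u ≠ 0 := h.eval_ne hρ hn (by omega)
  have hd1 : HasDerivAt (fun w => (Q P n (m + 1)).eval w) ((Q P n (m + 2)).eval u) u := by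
    have := (Q P n (m + 1)).hasDerivAt u
    rwa [← Q_succ] at this
  have hd0 : HasDerivAt (fun w => (Q P n m).eval w) ((Q P n (m + 1)).eval u) u := by
    have := (Q P n m).hasDerivAt u
    rwa [← Q_succ] at this
  have hd : HasDerivAt R (((Q P n (m + 2)).eval u * (n * (Q P n m).eval u) -
      (Q P n (m + 1)).eval u * (n * (Q P n (m + 1)).eval u)) / (n * (Q P n m).eval u) ^ 2) u :=
    hd1.div (hd0.const_mul (n : ℂ)) (mul_ne_zero hnc hu)
  rw [hd.deriv] at hder
  have key : (rr P u n (m + 1) - rr P u n m) * (n * rr P u n m) =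
      ((Q P n (m + 2)).eval u * (n * (Q P n m).eval u) -
      (Q P n (m + 1)).eval u * (n * (Q P n (m + 1)).eval u)) / (n * (Q P n m).eval u) ^ 2 := by
    unfold rr
    rw [show m + 1 + 1 = m + 2 from rfl]
    field_simp
  rw [← key, norm_mul, norm_mul, Complex.norm_natCast] at hder
  refine hder.trans ?_
  have : 2 * (P.natDegree : ℝ) / ρ / (ρ / 2) = 4 * P.natDegree / ρ ^ 2 := by field_simp; ring
  rw [this]
  gcongr
  norm_num

end

end Q73.Shadow
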