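import Pool.Agent.Q73.Sh.Newt

/-!
# A boundary point of the shadow away from the critical values
-/

set_option autoImplicit false

open Polynomial Filter Topology Metric

namespace Q73.Shadow

noncomputable def s1 : ℝ := √(15 / 16)

noncomputable def s2 : ℝ := √(3 / 4)

theorem s1_sq : s1 ^ 2 = 15 / 16 := Real.sq_sqrt (by norm_num)

theorem s2_sq : s2 ^ 2 = 3 / 4 := Real.sq_sqrt (by norm_num)

theorem s1_pos : 0 < s1 := Real.sqrt_pos.2 (by norm_num)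

theorem s2_pos : 0 < s2 := Real.sqrt_pos.2 (by norm_num)

theorem E_zero_iff (z : ℂ) : E.eval z = 0 ↔
    z = ⟨-1 / 4, s1⟩ ∨ z = ⟨-1 / 4, -s1⟩ ∨ z = ⟨1 / 2, s2⟩ ∨ z = ⟨1 / 2, -s2⟩ := by
  have h1 : 2 * z ^ 2 + z + 2 = 2 * (z - ⟨-1 / 4, s1⟩) * (z - ⟨-1 / 4, -s1⟩) := by
    have e : (⟨-1 / 4, s1⟩ : ℂ) = -1 / 4 + (s1 : ℂ) * Complex.I := by
      apply Complex.ext <;> simp
    have e' : (⟨-1 / 4, -s1⟩ : ℂ) = -1 / 4 - (s1 : ℂ) * Complex.I := by
      apply Complex.ext <;> simp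
    have hs : (s1 : ℂ) ^ 2 = 15 / 16 := by
      have := congrArg (fun r : ℝ => (r : ℂ)) s1_sq
      push_cast at this
      exact this
    rw [e, e']
    linear_combination (2 * Complex.I ^ 2) * hs + 15 / 8 * Complex.I_sq
  have h2 : z ^ 2 - z + 1 = (z - ⟨1 / 2, s2⟩) * (z - ⟨1 / 2, -s2⟩) := by
    have e : (⟨1 / 2, s2⟩ : ℂ) = 1 / 2 + (s2 : ℂ) * Complex.I := by
      apply Complex.ext <;> simp
    have e' : (⟨1 / 2, -s2⟩ : ℂ) = 1 / 2 - (s2 : ℂ) * Complex.I := by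
      apply Complex.ext <;> simp
    have hs : (s2 : ℂ) ^ 2 = 3 / 4 := by
      have := congrArg (fun r : ℝ => (r : ℂ)) s2_sq
      push_cast at this
      exact this
    rw [e, e']
    linear_combination (Complex.I ^ 2) * hs + 3 / 4 * Complex.I_sq
  rw [E_eq, nA, h1, h2]
  simp only [mul_eq_zero, sub_eq_zero, OfNat.ofNat_ne_zero, false_or]
  tauto

theorem E_zero_norm {z : ℂ} (h : E.eval z = 0) : ‖z‖ ≤ 1 := by
  have key : ∀ x y : ℝ, x ^ 2 + y ^ 2 = 1 → ‖(⟨x, y⟩ : ℂ)‖ ≤ 1 := by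
    intro x y hxy
    have h2 : ‖(⟨x, y⟩ : ℂ)‖ ^ 2 = 1 := by
      rw [← Complex.normSq_eq_norm_sq, Complex.normSq_apply]
      simp only
      linarith
    nlinarith [norm_nonneg (⟨x, y⟩ : ℂ)]
  rw [E_zero_iff] at h
  have h1 := s1_sq
  have h2 := s2_sq
  rcases h with rfl | rfl | rfl | rfl <;> apply key <;> nlinarith

theorem shadow_E_subset : shadow E ⊆ closedBall 0 1 :=
  shadow_subset (by rw [E_natDegree]; norm_num) isClosed_closedBall (convex_closedBall 0 1)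
    (fun z hz => by rw [mem_closedBall_zero_iff]; exact E_zero_norm hz)

theorem exists_frontier : ∃ v₀ : ℝ, 1 / 100 ≤ v₀ ∧ v₀ ≤ 1 ∧ (v₀ : ℂ) ∈ frontier (shadow E) := by
  set A : Set ℝ := {x : ℝ | 1 / 100 ≤ x ∧ (x : ℂ) ∈ shadow E} with hA
  have hcl : IsClosed (shadow E) := isClosed_closure
  have hne : A.Nonempty := ⟨1 / 100, le_rfl, mem_shadow_E⟩
  have hbd : ∀ x ∈ A, x ≤ 1 := by
    rintro x ⟨hx1, hx2⟩
    have := shadow_E_subset hx2
    rw [mem_closedBall_zero_iff, Complex.norm_real, Real.norm_eq_abs, abs_of_pos (by linarith)]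
      at this
    exact this
  have hAcl : IsClosed A := by
    have h1 : A = Set.Ici (1 / 100) ∩ (fun x : ℝ => (x : ℂ)) ⁻¹' shadow E := by
      ext x; simp [hA]
    rw [h1]
    exact isClosed_Ici.inter (hcl.preimage Complex.continuous_ofReal)
  have hba : BddAbove A := ⟨1, hbd⟩
  have hmem : sSup A ∈ A := hAcl.csSup_mem hne hba
  refine ⟨sSup A, hmem.1, hbd _ hmem, ?_⟩
  rw [frontier, hcl.closure_eq]
  refine ⟨hmem.2, fun hint => ?_⟩
  rw [mem_interior_iff_mem_nhds, Metric.mem_nhds_iff] at hint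
  obtain ⟨ε, hε, hsub⟩ := hint
  have h1 : sSup A + ε / 2 ∈ A := by
    refine ⟨by linarith [hmem.1], hsub ?_⟩
    rw [mem_ball, dist_eq_norm, ← Complex.ofReal_sub, Complex.norm_real, Real.norm_eq_abs,
      add_sub_cancel_left, abs_of_pos (by linarith)]
    linarith
  have h2 := le_csSup hba h1
  linarith

/-- **the boundary point** -/
theorem bdry : ∃ v₀ ∈ frontier (shadow E), ∃ r : ℝ, 0 < r ∧ ∀ v : ℂ, ‖v - v₀‖ < r →
    ∀ α : ℝ, 0 ≤ α → α ≤ 6 → ∀ F, IsNewton E α F → ∀ z₀,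
      F z₀ = (v : OnePoint ℂ) → ∃ U ∈ 𝓝 z₀, Set.InjOn F U := by
  obtain ⟨v₀, h1, h2, h3⟩ := exists_frontier
  refine ⟨v₀, h3, ?_⟩
  obtain ⟨r, hr, h4⟩ := Metric.eventually_nhds_iff.1 (no_crit h1 h2)
  refine ⟨r, hr, fun v hv α h0 h6 F hF z₀ hz₀ => ?_⟩
  exact h4 (y := v) (by rw [dist_eq_norm]; exact hv) α ⟨h0, h6⟩ F hF z₀ hz₀

end Q73.Shadow
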