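import Pool.Agent.Q73.Sh.Env

/-!
# The polynomial `4 z⁶ + 9 z⁴ - z³ + 9 z² + 4`: critical values of the Newton maps
-/

set_option autoImplicit false

open Polynomial Filter Topology Metric

namespace Q73.Shadow

/-- the numerator of `P / P'` -/
noncomputable def nA (z : ℂ) : ℂ := (2 * z ^ 2 + z + 2) * (z ^ 2 - z + 1)

/-- the denominator of `P / P'` -/
noncomputable def nB (z : ℂ) : ℂ := 3 * z * (4 * z ^ 2 - 2 * z + 3)

theorem E_eq (z : ℂ) : E.eval z = (2 * z ^ 2 + z + 2) * nA z := by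
  rw [E_eval, nA]; ring

theorem E'_eq (z : ℂ) : (derivative E).eval z = (2 * z ^ 2 + z + 2) * nB z := by
  rw [E_deriv, nB]; ring

/-- `(z - v) B(z) - α A(z)` -/
noncomputable def GG (v : ℂ) (α : ℝ) (z : ℂ) : ℂ :=
  (12 - 2 * α) * z ^ 4 + (-6 - 12 * v + α) * z ^ 3 + (9 + 6 * v - 3 * α) * z ^ 2 +
    (-9 * v + α) * z - 2 * α

theorem GG_eq (v : ℂ) (α : ℝ) (z : ℂ) : GG v α z = (z - v) * nB z - α * nA z := by
  unfold GG nA nB; ring

/-- its derivative -/
noncomputable def GG' (v : ℂ) (α : ℝ) (z : ℂ) : ℂ :=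
  4 * (12 - 2 * α) * z ^ 3 + 3 * (-6 - 12 * v + α) * z ^ 2 + 2 * (9 + 6 * v - 3 * α) * z +
    (-9 * v + α)

/-- no double zeros for real positive `v` -/
theorem no_double_real {v α : ℝ} (hv : 0 < v) (h0 : 0 ≤ α) (h6 : α ≤ 6) (z : ℂ)
    (h1 : GG v α z = 0) (h2 : GG' v α z = 0) : False := by
  by_cases hz : z.im = 0
  · -- real `z`
    obtain ⟨x, rfl⟩ : ∃ x : ℝ, z = x := ⟨z.re, by apply Complex.ext <;> simp [hz]⟩
    unfold GG at h1
    unfold GG' at h2
    have g1 : (12 - 2 * α) * x ^ 4 + (-6 - 12 * v + α) * x ^ 3 + (9 + 6 * v - 3 * α) * x ^ 2 +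
        (-9 * v + α) * x - 2 * α = 0 := by exact_mod_cast h1
    have g2 : 4 * (12 - 2 * α) * x ^ 3 + 3 * (-6 - 12 * v + α) * x ^ 2 +
        2 * (9 + 6 * v - 3 * α) * x + (-9 * v + α) = 0 := by exact_mod_cast h2
    set A : ℝ := (2 * x ^ 2 + x + 2) * (x ^ 2 - x + 1) with hA
    set B : ℝ := 3 * x * (4 * x ^ 2 - 2 * x + 3) with hB
    set A' : ℝ := 8 * x ^ 3 - 3 * x ^ 2 + 6 * x - 1 with hA'
    set B' : ℝ := 36 * x ^ 2 - 12 * x + 9 with hB'
    have e1 : (x - v) * B = α * A := by rw [hA, hB]; linear_combination g1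
    have e2 : B + (x - v) * B' - α * A' = 0 := by rw [hB, hB', hA']; linear_combination g2
    have e3 : B ^ 2 = α * (A' * B - A * B') := by
      linear_combination B * e2 - B' * e1
    have hApos : 0 < A := by
      have a1 : 0 < 2 * x ^ 2 + x + 2 := by nlinarith [sq_nonneg (x + 1 / 4)]
      have a2 : 0 < x ^ 2 - x + 1 := by nlinarith [sq_nonneg (x - 1 / 2)]
      positivity
    have key : 6 * (A' * B - A * B') < B ^ 2 := by
      rw [hA, hB, hA', hB']
      nlinarith [sq_nonneg (x ^ 2 - x), sq_nonneg (x - 1), sq_nonneg (x ^ 2), sq_nonneg x,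
        sq_nonneg (x ^ 2 - 1)]
    rcases eq_or_ne B 0 with hB0 | hB0
    · rw [hB0, mul_zero] at e1
      have hα : α = 0 := by
        rcases mul_eq_zero.1 e1.symm with h | h
        · exact h
        · exact absurd h hApos.ne'
      rw [hB0, hα] at e2
      have hx0 : x = 0 := by
        rcases mul_eq_zero.1 hB0 with h | h
        · linarith
        · nlinarith [sq_nonneg (x - 1 / 4)]
      rw [hB', hx0] at e2
      nlinarith
    · have hBpos : 0 < B ^ 2 := by positivity
      rcases le_or_gt (A' * B - A * B') 0 with h | h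
      · nlinarith [mul_nonneg h0 (neg_nonneg.2 h)]
      · nlinarith [mul_le_mul_of_nonneg_right h6 h.le]
  · -- non-real `z`
    set w : ℂ := (starRingEnd ℂ) z with hw
    have hzw : z - w ≠ 0 := by
      intro h
      apply hz
      have := congrArg Complex.im h
      simp [hw] at this
      exact this
    have h3 : GG v α w = 0 := by
      have := congrArg (starRingEnd ℂ) h1
      simp only [GG, map_zero, map_add, map_sub, map_mul, map_pow, map_neg, map_ofNat,
        Complex.conj_ofReal] at this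
      simp only [GG]
      exact this
    have h4 : GG' v α w = 0 := by
      have := congrArg (starRingEnd ℂ) h2
      simp only [GG', map_zero, map_add, map_sub, map_mul, map_pow, map_neg, map_ofNat,
        Complex.conj_ofReal] at this
      simp only [GG']
      exact this
    have key : (z - w) ^ 3 * (-2 * (α : ℂ) - (12 - 2 * α) * (z * w) ^ 2) = 0 := by
      unfold GG at h1 h3
      unfold GG' at h2 h4
      linear_combination (3 * z - w) * w ^ 2 * h1 - (3 * w - z) * z ^ 2 * h3 -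
        z * w ^ 2 * (z - w) * h2 - w * z ^ 2 * (z - w) * h4
    have h5 := (mul_eq_zero.1 key).resolve_left (pow_ne_zero 3 hzw)
    have h6' : z * w = ((z.re ^ 2 + z.im ^ 2 : ℝ) : ℂ) := by
      rw [hw, Complex.mul_conj, Complex.normSq_apply]
      push_cast
      ring
    rw [h6'] at h5
    have h7 : -2 * α - (12 - 2 * α) * (z.re ^ 2 + z.im ^ 2) ^ 2 = 0 := by exact_mod_cast h5
    have h8 : 0 < z.re ^ 2 + z.im ^ 2 := by
      have : 0 < z.im ^ 2 := by positivity
      nlinarith [sq_nonneg z.re]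
    have h9 : 0 < (z.re ^ 2 + z.im ^ 2) ^ 2 := by positivity
    rcases eq_or_lt_of_le h0 with h | h
    · rw [← h] at h7
      nlinarith
    · nlinarith [mul_nonneg (sub_nonneg.2 h6) h9.le]

end Q73.Shadow
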