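import Pool.Agent.Q73.Sh.Crit

/-!
# No critical values near the positive real axis
-/

set_option autoImplicit false

open Polynomial Filter Topology Metric

namespace Q73.Shadow

theorem bounded_of_double {v z : ℂ} {α : ℝ} (hv : 1 / 200 ≤ v.re) (hv2 : ‖v‖ ≤ 2) (h0 : 0 ≤ α)
    (h6 : α ≤ 6) (h1 : GG v α z = 0) (h2 : GG' v α z = 0) : ‖z‖ ≤ 4000 := by
  by_contra hc
  push Not at hc
  have e : (-6 - 12 * v + α) * z ^ 3 = -(2 * (9 + 6 * v - 3 * α) * z ^ 2 +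
      3 * (-9 * v + α) * z - 8 * α) := by
    unfold GG at h1
    unfold GG' at h2
    linear_combination 4 * h1 - z * h2
  have h3 := congrArg norm e
  rw [norm_neg, norm_mul, norm_pow] at h3
  have a3 : 6 / 100 ≤ ‖-6 - 12 * v + (α : ℂ)‖ := by
    have := Complex.abs_re_le_norm (-6 - 12 * v + (α : ℂ))
    have e2 : (-6 - 12 * v + (α : ℂ)).re = -6 - 12 * v.re + α := by simp
    rw [e2] at this
    have h4 := neg_abs_le (-6 - 12 * v.re + α)
    linarith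
  have hα : ‖(α : ℂ)‖ ≤ 6 := by
    rw [Complex.norm_real, Real.norm_eq_abs, abs_of_nonneg h0]; exact h6
  have b2 : ‖2 * (9 + 6 * v - 3 * (α : ℂ)) * z ^ 2‖ ≤ 78 * ‖z‖ ^ 2 := by
    rw [norm_mul, norm_mul, norm_pow, Complex.norm_ofNat]
    have : ‖9 + 6 * v - 3 * (α : ℂ)‖ ≤ 39 := by
      have c1 := norm_sub_le (9 + 6 * v) (3 * (α : ℂ))
      have c2 := norm_add_le 9 (6 * v)
      simp only [norm_mul, Complex.norm_ofNat] at c1 c2
      linarith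
    nlinarith [sq_nonneg ‖z‖]
  have b1 : ‖3 * (-9 * v + (α : ℂ)) * z‖ ≤ 72 * ‖z‖ := by
    rw [norm_mul, norm_mul, Complex.norm_ofNat]
    have : ‖-9 * v + (α : ℂ)‖ ≤ 24 := by
      have c1 := norm_add_le (-9 * v) (α : ℂ)
      simp only [norm_mul, norm_neg, Complex.norm_ofNat] at c1
      linarith
    nlinarith [norm_nonneg z]
  have b0 : ‖8 * (α : ℂ)‖ ≤ 48 := by
    rw [norm_mul, Complex.norm_ofNat]
    linarith
  have b3 : ‖2 * (9 + 6 * v - 3 * (α : ℂ)) * z ^ 2 + 3 * (-9 * v + (α : ℂ)) * z - 8 * (α : ℂ)‖ ≤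
      78 * ‖z‖ ^ 2 + 72 * ‖z‖ + 48 := by
    have c1 := norm_sub_le (2 * (9 + 6 * v - 3 * (α : ℂ)) * z ^ 2 + 3 * (-9 * v + (α : ℂ)) * z)
      (8 * (α : ℂ))
    have c2 := norm_add_le (2 * (9 + 6 * v - 3 * (α : ℂ)) * z ^ 2) (3 * (-9 * v + (α : ℂ)) * z)
    linarith
  rw [← h3] at b3
  have h5 : 6 / 100 * ‖z‖ ^ 3 ≤ 78 * ‖z‖ ^ 2 + 72 * ‖z‖ + 48 :=
    le_trans (mul_le_mul_of_nonneg_right a3 (by positivity)) b3
  nlinarith [mul_pos (sub_pos.2 hc) (sub_pos.2 hc), sq_nonneg ‖z‖]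

/-- no double zeros near a real positive point -/
theorem no_double_near {v₀ : ℝ} (hv : 1 / 100 ≤ v₀) (hv1 : v₀ ≤ 1) :
    ∀ᶠ v in 𝓝 (v₀ : ℂ), ∀ α ∈ Set.Icc (0 : ℝ) 6, ∀ z, ¬ (GG v α z = 0 ∧ GG' v α z = 0) := by
  have hK : IsCompact (Set.Icc (0 : ℝ) 6 ×ˢ closedBall (0 : ℂ) 4000) :=
    isCompact_Icc.prod (isCompact_closedBall _ _)
  have hc1 : Continuous fun p : ℂ × (ℝ × ℂ) => GG p.1 p.2.1 p.2.2 := by
    unfold GG
    have := Complex.continuous_ofReal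
    fun_prop
  have hc2 : Continuous fun p : ℂ × (ℝ × ℂ) => GG' p.1 p.2.1 p.2.2 := by
    unfold GG'
    have := Complex.continuous_ofReal
    fun_prop
  have h1 : ∀ᶠ v in 𝓝 (v₀ : ℂ), ∀ y ∈ (Set.Icc (0 : ℝ) 6 ×ˢ closedBall (0 : ℂ) 4000),
      ¬ (GG v y.1 y.2 = 0 ∧ GG' v y.1 y.2 = 0) := by
    refine hK.eventually_forall_of_forall_eventually ?_
    rintro ⟨α, z⟩ ⟨hα, hz⟩
    by_cases hG : GG v₀ α z = 0
    · have hG' : GG' v₀ α z ≠ 0 := fun h =>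
        no_double_real (by linarith) hα.1 hα.2 z hG h
      have := (hc2.continuousAt (x := ((v₀ : ℂ), (α, z)))).eventually_ne hG'
      filter_upwards [this] with p hp h
      exact hp h.2
    · have := (hc1.continuousAt (x := ((v₀ : ℂ), (α, z)))).eventually_ne hG
      filter_upwards [this] with p hp h
      exact hp h.1
  have h2 : ∀ᶠ v in 𝓝 (v₀ : ℂ), 1 / 200 < v.re := by
    refine Complex.continuous_re.continuousAt.eventually_const_lt ?_
    rw [Complex.ofReal_re]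
    linarith
  have h3 : ∀ᶠ v in 𝓝 (v₀ : ℂ), ‖v‖ < 2 := by
    refine continuous_norm.continuousAt.eventually_lt_const ?_
    beta_reduce
    rw [Complex.norm_real, Real.norm_eq_abs, abs_of_pos (by linarith)]
    linarith
  filter_upwards [h1, h2, h3] with v hv1 hv2 hv3 α hα z hz
  exact hv1 (α, z) ⟨hα, by
    rw [mem_closedBall_zero_iff]
    exact bounded_of_double hv2.le hv3.le hα.1 hα.2 hz.1 hz.2⟩ hz

end Q73.Shadow
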