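import Pool.Agent.Q73.Sh.Exit

/-!
# A trapezoid with a critical point in the interior of the shadow
-/

set_option autoImplicit false

open Polynomial Filter Topology Metric

namespace Q73.Shadow

/-- The shadow of `P`. -/
def shadow (P : ℂ[X]) : Set ℂ :=
  closure {z | ∃ n m : ℕ, 1 ≤ n ∧ m ≤ n * P.natDegree ∧ (Q P n m).eval z = 0}

theorem mem_shadow {P : ℂ[X]} {u : ℂ} (h : ∀ ρ : ℝ, 0 < ρ → ¬ Free P u ρ) : u ∈ shadow P := by
  rw [shadow, Metric.mem_closure_iff]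
  intro ρ hρ
  by_contra hc
  refine h ρ hρ fun n m hn hm z hz h0 => hc ⟨z, ⟨n, m, hn, hm, h0⟩, ?_⟩
  rw [dist_comm]
  exact mem_ball.1 hz

/-- If the barrier condition holds at `u₀`, then `u₀` is an interior point of the shadow. -/
theorem mem_interior_shadow {P : ℂ[X]} (hd : 1 ≤ P.natDegree) {D : Set ℂ} (hD : IsOpen D)
    (hb : Bornology.IsBounded D) {u₀ : ℂ} (hu : u₀ ∈ D)
    (hbar : ∀ z ∈ frontier D, ∀ α ∈ Set.Icc (0:ℝ) P.natDegree,
      (z - u₀) * (derivative P).eval z ≠ α * P.eval z) : u₀ ∈ interior (shadow P) := by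
  rw [mem_interior_iff_mem_nhds]
  have hK : IsCompact (frontier D ×ˢ Set.Icc (0 : ℝ) P.natDegree) := by
    refine IsCompact.prod ?_ isCompact_Icc
    exact Metric.isCompact_of_isClosed_isBounded isClosed_frontier
      (hb.closure.subset frontier_subset_closure)
  have h1 : ∀ᶠ u in 𝓝 u₀, ∀ y ∈ (frontier D ×ˢ Set.Icc (0 : ℝ) P.natDegree),
      (y.1 - u) * (derivative P).eval y.1 ≠ y.2 * P.eval y.1 := by
    refine hK.eventually_forall_of_forall_eventually ?_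
    rintro ⟨z, α⟩ ⟨hz, hα⟩
    have hc1 : Continuous fun p : ℂ × (ℂ × ℝ) => (p.2.1 - p.1) * (derivative P).eval p.2.1 := by
      have := (derivative P).continuous
      fun_prop
    have hc2 : Continuous fun p : ℂ × (ℂ × ℝ) => ((p.2.2 : ℝ) : ℂ) * P.eval p.2.1 := by
      have := P.continuous
      have h2 := Complex.continuous_ofReal
      fun_prop
    have hc3 := ((hc1.sub hc2).continuousAt (x := (u₀, (z, α)))).eventually_ne
      (y := 0) (sub_ne_zero.2 (hbar z hz α hα))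
    filter_upwards [hc3] with p hp
    exact sub_ne_zero.1 hp
  filter_upwards [h1, hD.mem_nhds hu] with u hu1 hu2
  refine mem_shadow fun ρ hρ => not_free hd hD hb hu2 ?_ hρ
  intro z hz α hα
  exact hu1 (z, α) ⟨hz, hα⟩

/-! ### The example -/

/-- the polynomial `2 z⁴ - 4 z³ - z² + 25` with the zeros `-1 ± i √(3/2)`, `2 ± i` -/
noncomputable def T : ℂ[X] := C 2 * X ^ 4 - C 4 * X ^ 3 - X ^ 2 + C 25

theorem T_eval (z : ℂ) : T.eval z = 2 * z ^ 4 - 4 * z ^ 3 - z ^ 2 + 25 := by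
  simp [T]

theorem T_deriv_eval (z : ℂ) : (derivative T).eval z = 8 * z ^ 3 - 12 * z ^ 2 - 2 * z := by
  simp [T]
  ring

theorem T_natDegree : T.natDegree = 4 := by
  unfold T
  compute_degree!

/-- the barrier function -/
noncomputable def bb (z : ℂ) : ℝ := max (z.re ^ 2 + z.im ^ 2 - 100) (-1 / 8 - z.re - |z.im|)

theorem bb_cont : Continuous bb := by
  unfold bb
  have h1 := Complex.continuous_re
  have h2 := Complex.continuous_im
  fun_prop

/-- the domain -/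
def DD : Set ℂ := {z | bb z < 0}

theorem DD_open : IsOpen DD := isOpen_lt bb_cont continuous_const

theorem DD_frontier {z : ℂ} (hz : z ∈ frontier DD) : bb z = 0 :=
  frontier_lt_subset_eq bb_cont continuous_const hz

theorem DD_bounded : Bornology.IsBounded DD := by
  refine (Metric.isBounded_iff_subset_closedBall 0).2 ⟨10, fun z hz => ?_⟩
  have h1 : z.re ^ 2 + z.im ^ 2 - 100 < 0 := lt_of_le_of_lt (le_max_left _ _) hz
  rw [mem_closedBall_zero_iff]
  have h2 : ‖z‖ ^ 2 = z.re ^ 2 + z.im ^ 2 := by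
    rw [← Complex.normSq_eq_norm_sq, Complex.normSq_apply]; ring
  nlinarith [norm_nonneg z]

theorem zero_mem_DD : (0 : ℂ) ∈ DD := by
  simp [DD, bb]
  norm_num

theorem re_im_eq {x y α : ℝ}
    (h : ((⟨x, y⟩ : ℂ) - 0) * (derivative T).eval ⟨x, y⟩ = α * T.eval ⟨x, y⟩) :
    (8 * (x ^ 4 - 6 * x ^ 2 * y ^ 2 + y ^ 4) - 12 * (x ^ 3 - 3 * x * y ^ 2) - 2 * (x ^ 2 - y ^ 2) =
      α * (2 * (x ^ 4 - 6 * x ^ 2 * y ^ 2 + y ^ 4) - 4 * (x ^ 3 - 3 * x * y ^ 2) - (x ^ 2 - y ^ 2)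
        + 25)) ∧
    (8 * (4 * x ^ 3 * y - 4 * x * y ^ 3) - 12 * (3 * x ^ 2 * y - y ^ 3) - 2 * (2 * x * y) =
      α * (2 * (4 * x ^ 3 * y - 4 * x * y ^ 3) - 4 * (3 * x ^ 2 * y - y ^ 3) - 2 * x * y)) := by
  rw [T_eval, T_deriv_eval] at h
  have h1 := congrArg Complex.re h
  have h2 := congrArg Complex.im h
  simp [pow_succ, Complex.mul_re, Complex.mul_im] at h1 h2
  constructor
  · linear_combination h1
  · linear_combination h2

theorem edge_neg {t : ℝ} (ht : 0 < t) :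
    -102361 / 32768 * t - 332719 / 2048 * t ^ 2 - 204633 / 256 * t ^ 3 + 11 / 2 * t ^ 4 +
      47 / 2 * t ^ 5 + 8 * t ^ 6 - 64 * t ^ 7 < 0 := by
  have h1 : 11 / 2 * t + 47 / 2 * t ^ 2 + 8 * t ^ 3 - 64 * t ^ 4 - 204633 / 256 < 0 := by
    nlinarith [sq_nonneg (t ^ 2 - t), sq_nonneg (t ^ 2 - 1), sq_nonneg (t - 1), sq_nonneg t]
  have h2 : 0 < t ^ 3 := by positivity
  have h3 : 0 < t ^ 2 := by positivity
  nlinarith [mul_pos_of_neg_of_neg h1 (neg_neg_of_pos h2)]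

theorem barrier : ∀ z ∈ frontier DD, ∀ α ∈ Set.Icc (0 : ℝ) T.natDegree,
    (z - 0) * (derivative T).eval z ≠ α * T.eval z := by
  rintro ⟨x, y⟩ hz α ⟨hα0, hα1⟩ h
  rw [T_natDegree] at hα1
  have hα4 : α ≤ 4 := by exact_mod_cast hα1
  obtain ⟨h1, h2⟩ := re_im_eq h
  have hb := DD_frontier hz
  unfold bb at hb
  simp only at hb
  have hb1 : x ^ 2 + y ^ 2 - 100 ≤ 0 := by rw [← hb]; exact le_max_left _ _
  have hb2 : -1 / 8 - x - |y| ≤ 0 := by rw [← hb]; exact le_max_right _ _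
  rcases max_choice (x ^ 2 + y ^ 2 - 100) (-1 / 8 - x - |y|) with hc | hc
  · -- the circle
    rw [hc] at hb
    have hy2 : y ^ 2 = 100 - x ^ 2 := by linarith
    have hy3 : y ^ 3 = y * (100 - x ^ 2) := by rw [← hy2]; ring
    have hy4 : y ^ 4 = (100 - x ^ 2) ^ 2 := by rw [← hy2]; ring
    rw [hy2, hy4] at h1
    rw [hy3] at h2
    have key : y * (-7930000 - 160100 * x - 1200 * x ^ 2 + 1600 * x ^ 3) = 0 := by
      linear_combination (2 * (x ^ 4 - 6 * x ^ 2 * (100 - x ^ 2) + (100 - x ^ 2) ^ 2) -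
        4 * (x ^ 3 - 3 * x * (100 - x ^ 2)) - (x ^ 2 - (100 - x ^ 2)) + 25) * h2 -
        (2 * (4 * x ^ 3 * y - 4 * x * (y * (100 - x ^ 2))) -
        4 * (3 * x ^ 2 * y - (y * (100 - x ^ 2))) - 2 * x * y) * h1
    have hx10 : x ^ 2 ≤ 100 := by nlinarith [sq_nonneg y]
    have hxa : |x| ≤ 10 := abs_le_of_sq_le_sq (by linarith) (by norm_num)
    obtain ⟨hxl, hxu⟩ := abs_le.1 hxa
    rcases mul_eq_zero.1 key with hy | hK
    · rw [hy, abs_zero] at hb2
      rw [hy] at hy2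
      have hx : x = 10 := by nlinarith
      rw [hx] at h1
      norm_num at h1
      linarith
    · nlinarith [mul_nonneg (sub_nonneg.2 hxu) (sub_nonneg.2 hxl), sq_nonneg x,
        mul_nonneg (sub_nonneg.2 hxu) (sq_nonneg x)]
  · -- the edges
    rw [hc] at hb
    have hx : x = -1 / 8 - |y| := by linarith
    rcases lt_trichotomy y 0 with hy | hy | hy
    · rw [abs_of_neg hy] at hx
      have := edge_neg (t := -y) (by linarith)
      rw [hx] at h1 h2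
      have key : -102361 / 32768 * -y - 332719 / 2048 * (-y) ^ 2 - 204633 / 256 * (-y) ^ 3 +
          11 / 2 * (-y) ^ 4 + 47 / 2 * (-y) ^ 5 + 8 * (-y) ^ 6 - 64 * (-y) ^ 7 = 0 := by
        linear_combination -(2 * ((-1 / 8 - -y) ^ 4 - 6 * (-1 / 8 - -y) ^ 2 * y ^ 2 + y ^ 4) - 4 * ((-1 / 8 - -y) ^ 3 - 3 * (-1 / 8 - -y) * y ^ 2) -
          ((-1 / 8 - -y) ^ 2 - y ^ 2) + 25) * h2 +
          (2 * (4 * (-1 / 8 - -y) ^ 3 * y - 4 * (-1 / 8 - -y) * y ^ 3) -
          4 * (3 * (-1 / 8 - -y) ^ 2 * y - y ^ 3) - 2 * (-1 / 8 - -y) * y) * h1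
      linarith
    · rw [hy, abs_zero] at hx
      rw [hx, hy] at h1
      norm_num at h1
      nlinarith
    · rw [abs_of_pos hy] at hx
      have := edge_neg hy
      rw [hx] at h1 h2
      have key : -102361 / 32768 * y - 332719 / 2048 * y ^ 2 - 204633 / 256 * y ^ 3 +
          11 / 2 * y ^ 4 + 47 / 2 * y ^ 5 + 8 * y ^ 6 - 64 * y ^ 7 = 0 := by
        linear_combination (2 * ((-1 / 8 - y) ^ 4 - 6 * (-1 / 8 - y) ^ 2 * y ^ 2 + y ^ 4) - 4 * ((-1 / 8 - y) ^ 3 - 3 * (-1 / 8 - y) * y ^ 2) -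
          ((-1 / 8 - y) ^ 2 - y ^ 2) + 25) * h2 -
          (2 * (4 * (-1 / 8 - y) ^ 3 * y - 4 * (-1 / 8 - y) * y ^ 3) -
          4 * (3 * (-1 / 8 - y) ^ 2 * y - y ^ 3) - 2 * (-1 / 8 - y) * y) * h1
      linarith

theorem zero_mem_interior : (0 : ℂ) ∈ interior (shadow T) :=
  mem_interior_shadow (by rw [T_natDegree]; norm_num) DD_open DD_bounded zero_mem_DD barrier

theorem T_crit : (derivative T).eval 0 = 0 := by
  rw [T_deriv_eval]; norm_num

/-! ### The zeros of `T` -/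

noncomputable def sq : ℝ := √(3 / 2)

theorem sq_sq : sq ^ 2 = 3 / 2 := Real.sq_sqrt (by norm_num)

theorem sq_pos : 0 < sq := Real.sqrt_pos.2 (by norm_num)

theorem T_factor (z : ℂ) : T.eval z = 2 * (z - ⟨-1, sq⟩) * (z - ⟨-1, -sq⟩) * (z - ⟨2, 1⟩) *
    (z - ⟨2, -1⟩) := by
  rw [T_eval]
  have h1 : (z - ⟨-1, sq⟩) * (z - ⟨-1, -sq⟩) = z ^ 2 + 2 * z + 5 / 2 := by
    have e : (⟨-1, sq⟩ : ℂ) = -1 + (sq : ℂ) * Complex.I := by
      apply Complex.ext <;> simp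
    have e' : (⟨-1, -sq⟩ : ℂ) = -1 - (sq : ℂ) * Complex.I := by
      apply Complex.ext <;> simp
    have hs : (sq : ℂ) ^ 2 = 3 / 2 := by
      have := congrArg (fun r : ℝ => (r : ℂ)) sq_sq
      push_cast at this
      exact this
    rw [e, e']
    linear_combination (-(Complex.I ^ 2)) * hs - 3 / 2 * Complex.I_sq
  have h2 : (z - ⟨2, 1⟩) * (z - ⟨2, -1⟩) = z ^ 2 - 4 * z + 5 := by
    have e : (⟨2, 1⟩ : ℂ) = 2 + Complex.I := by
      apply Complex.ext <;> simp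
    have e' : (⟨2, -1⟩ : ℂ) = 2 - Complex.I := by
      apply Complex.ext <;> simp
    rw [e, e']
    linear_combination -Complex.I_sq
  linear_combination (-2 * (z - ⟨2, 1⟩) * (z - ⟨2, -1⟩)) * h1 - 2 * (z ^ 2 + 2 * z + 5 / 2) * h2

end Q73.Shadow
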