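import Pool.Agent.Q73.Sh.Real
import Pool.Agent.Q73.Sh.Trap

/-!
# The polynomial `4 z⁶ + 9 z⁴ - z³ + 9 z² + 4`: real points of the shadow
-/

set_option autoImplicit false

open Polynomial Filter Topology Metric

namespace Q73.Shadow

/-- the shadow lies in every disc that contains the zeros of `P` -/
theorem shadow_subset {P : ℂ[X]} (hd : 1 ≤ P.natDegree) {K : Set ℂ} (hK : IsClosed K)
    (hc : Convex ℝ K) (hz : ∀ z, P.eval z = 0 → z ∈ K) : shadow P ⊆ K := by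
  refine closure_minimal ?_ hK
  rintro z ⟨n, m, hn, hm, hz0⟩
  have hP0 : P ≠ 0 := by
    rintro rfl
    simp at hd
  have hne : ∀ m, m ≤ n * P.natDegree → Q P n m ≠ 0 ∧
      (Q P n m).natDegree = n * P.natDegree - m := by
    intro m
    induction m with
    | zero =>
      intro _
      rw [Q_zero]
      exact ⟨pow_ne_zero _ hP0, by rw [natDegree_pow]; simp⟩
    | succ m ih =>
      intro hm
      obtain ⟨h1, h2⟩ := ih (by omega)
      have h3 : 0 < (Q P n m).natDegree := by rw [h2]; omega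
      rw [Q_succ]
      refine ⟨fun h0 => ?_, ?_⟩
      · have := derivative_eq_zero.1 h0
        omega
      · rw [natDegree_derivative, h2]
        omega
  have key : ∀ m, m ≤ n * P.natDegree → ∀ z, (Q P n m).eval z = 0 → z ∈ K := by
    intro m
    induction m with
    | zero =>
      intro _ z hz'
      rw [Q_zero, eval_pow] at hz'
      exact hz z (pow_eq_zero_iff (by omega) |>.1 hz')
    | succ m ih =>
      intro hm z hz'
      obtain ⟨h1, h2⟩ := hne m (by omega)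
      obtain ⟨h3, -⟩ := hne (m + 1) hm
      have hdeg : 0 < (Q P n m).degree := natDegree_pos_iff_degree_pos.1 (by rw [h2]; omega)
      rw [Q_succ] at hz' h3
      have h4 : z ∈ (derivative (Q P n m)).rootSet ℂ := by
        rw [mem_rootSet]
        exact ⟨h3, by simpa using hz'⟩
      have h5 := rootSet_derivative_subset_convexHull_rootSet hdeg h4
      refine convexHull_min ?_ hc h5
      intro w hw
      rw [mem_rootSet] at hw
      exact ih (by omega) w (by simpa using hw.2)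
  exact key m hm z hz0

/-! ### The polynomial -/

/-- the real polynomial -/
noncomputable def e : ℝ[X] := C 4 * X ^ 6 + C 9 * X ^ 4 - X ^ 3 + C 9 * X ^ 2 + C 4

/-- the complex polynomial -/
noncomputable def E : ℂ[X] := C 4 * X ^ 6 + C 9 * X ^ 4 - X ^ 3 + C 9 * X ^ 2 + C 4

theorem e_map : e.map Complex.ofRealHom = E := by
  simp [e, E]

theorem e_natDegree : e.natDegree = 6 := by
  unfold e
  compute_degree!

theorem E_natDegree : E.natDegree = 6 := by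
  unfold E
  compute_degree!

theorem e_eval (x : ℝ) : e.eval x = 4 * x ^ 6 + 9 * x ^ 4 - x ^ 3 + 9 * x ^ 2 + 4 := by
  simp [e]

theorem e_deriv (x : ℝ) : (derivative e).eval x = 24 * x ^ 5 + 36 * x ^ 3 - 3 * x ^ 2 + 18 * x := by
  simp [e]
  ring

theorem E_eval (z : ℂ) : E.eval z = 4 * z ^ 6 + 9 * z ^ 4 - z ^ 3 + 9 * z ^ 2 + 4 := by
  simp [E]

theorem E_deriv (z : ℂ) :
    (derivative E).eval z = 24 * z ^ 5 + 36 * z ^ 3 - 3 * z ^ 2 + 18 * z := by
  simp [E]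
  ring

/-- the barrier: the large circle, for `α ≤ 11 / 2` -/
theorem E_barrier : ∀ z ∈ frontier (ball (0 : ℂ) 10), ∀ α ∈ Set.Icc (0:ℝ) (11 / 2),
    (z - ((1 / 100 : ℝ) : ℂ)) * (derivative E).eval z ≠ α * E.eval z := by
  intro z hz α hα h
  rw [frontier_ball _ (by norm_num), mem_sphere_zero_iff_norm] at hz
  obtain ⟨h0, h1⟩ := hα
  rw [E_eval, E_deriv] at h
  have h2 : ((24 - 4 * α : ℝ) : ℂ) * z ^ 6 = ((6 / 25 : ℝ) : ℂ) * z ^ 5 +
      ((9 * α - 36 : ℝ) : ℂ) * z ^ 4 + ((84 / 25 - α : ℝ) : ℂ) * z ^ 3 +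
      ((9 * α - 1803 / 100 : ℝ) : ℂ) * z ^ 2 + ((9 / 50 : ℝ) : ℂ) * z + ((4 * α : ℝ) : ℂ) := by
    push_cast at h ⊢
    linear_combination h
  have h3 := congrArg norm h2
  rw [norm_mul, norm_pow, hz, Complex.norm_real, Real.norm_eq_abs, abs_of_nonneg (by linarith)] at h3
  have b1 : ‖((6 / 25 : ℝ) : ℂ) * z ^ 5‖ ≤ 24000 := by
    rw [norm_mul, norm_pow, hz, Complex.norm_real, Real.norm_eq_abs, abs_of_pos (by norm_num)]
    norm_num
  have b2 : ‖((9 * α - 36 : ℝ) : ℂ) * z ^ 4‖ ≤ 36 * 10 ^ 4 := by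
    rw [norm_mul, norm_pow, hz, Complex.norm_real, Real.norm_eq_abs]
    have : |9 * α - 36| ≤ 36 := abs_le.2 ⟨by linarith, by linarith⟩
    gcongr
  have b3 : ‖((84 / 25 - α : ℝ) : ℂ) * z ^ 3‖ ≤ 4 * 10 ^ 3 := by
    rw [norm_mul, norm_pow, hz, Complex.norm_real, Real.norm_eq_abs]
    have : |84 / 25 - α| ≤ 4 := abs_le.2 ⟨by linarith, by linarith⟩
    gcongr
  have b4 : ‖((9 * α - 1803 / 100 : ℝ) : ℂ) * z ^ 2‖ ≤ 36 * 10 ^ 2 := by
    rw [norm_mul, norm_pow, hz, Complex.norm_real, Real.norm_eq_abs]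
    have : |9 * α - 1803 / 100| ≤ 36 := abs_le.2 ⟨by linarith, by linarith⟩
    gcongr
  have b5 : ‖((9 / 50 : ℝ) : ℂ) * z‖ ≤ 2 := by
    rw [norm_mul, hz, Complex.norm_real, Real.norm_eq_abs, abs_of_pos (by norm_num)]
    norm_num
  have b6 : ‖((4 * α : ℝ) : ℂ)‖ ≤ 22 := by
    rw [Complex.norm_real, Real.norm_eq_abs, abs_of_nonneg (by linarith)]
    linarith
  have h4 := norm_add_le (((6 / 25 : ℝ) : ℂ) * z ^ 5 +
      ((9 * α - 36 : ℝ) : ℂ) * z ^ 4 + ((84 / 25 - α : ℝ) : ℂ) * z ^ 3 +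
      ((9 * α - 1803 / 100 : ℝ) : ℂ) * z ^ 2 + ((9 / 50 : ℝ) : ℂ) * z) ((4 * α : ℝ) : ℂ)
  have h5 := norm_add_le (((6 / 25 : ℝ) : ℂ) * z ^ 5 +
      ((9 * α - 36 : ℝ) : ℂ) * z ^ 4 + ((84 / 25 - α : ℝ) : ℂ) * z ^ 3 +
      ((9 * α - 1803 / 100 : ℝ) : ℂ) * z ^ 2) (((9 / 50 : ℝ) : ℂ) * z)
  have h6 := norm_add_le (((6 / 25 : ℝ) : ℂ) * z ^ 5 +
      ((9 * α - 36 : ℝ) : ℂ) * z ^ 4 + ((84 / 25 - α : ℝ) : ℂ) * z ^ 3)
      (((9 * α - 1803 / 100 : ℝ) : ℂ) * z ^ 2)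
  have h7 := norm_add_le (((6 / 25 : ℝ) : ℂ) * z ^ 5 +
      ((9 * α - 36 : ℝ) : ℂ) * z ^ 4) (((84 / 25 - α : ℝ) : ℂ) * z ^ 3)
  have h8 := norm_add_le (((6 / 25 : ℝ) : ℂ) * z ^ 5) (((9 * α - 36 : ℝ) : ℂ) * z ^ 4)
  rw [← h3] at h4
  nlinarith

/-- bound on the circle around `1 / 100` -/
theorem E_bound : ∀ z ∈ sphere (((1 / 100 : ℝ) : ℂ)) 10, ‖E.eval z‖ ≤ 5000000 := by
  intro z hz
  have hz' : ‖z‖ ≤ 10.01 := by
    rw [mem_sphere, dist_eq_norm] at hz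
    have h1 := norm_add_le (z - ((1 / 100 : ℝ) : ℂ)) ((1 / 100 : ℝ) : ℂ)
    rw [sub_add_cancel, hz, Complex.norm_real, Real.norm_eq_abs, abs_of_pos (by norm_num)] at h1
    linarith
  rw [E_eval]
  have h1 : ‖4 * z ^ 6 + 9 * z ^ 4 - z ^ 3 + 9 * z ^ 2 + 4‖ ≤
      4 * ‖z‖ ^ 6 + 9 * ‖z‖ ^ 4 + ‖z‖ ^ 3 + 9 * ‖z‖ ^ 2 + 4 := by
    have a1 := norm_add_le (4 * z ^ 6 + 9 * z ^ 4 - z ^ 3 + 9 * z ^ 2) 4
    have a2 := norm_add_le (4 * z ^ 6 + 9 * z ^ 4 - z ^ 3) (9 * z ^ 2)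
    have a3 := norm_sub_le (4 * z ^ 6 + 9 * z ^ 4) (z ^ 3)
    have a4 := norm_add_le (4 * z ^ 6) (9 * z ^ 4)
    simp only [norm_mul, norm_pow, Complex.norm_ofNat] at a1 a2 a3 a4
    linarith
  refine h1.trans ?_
  have h0 := norm_nonneg z
  have c2 : ‖z‖ ^ 2 ≤ 10.01 ^ 2 := pow_le_pow_left₀ h0 hz' 2
  have c3 : ‖z‖ ^ 3 ≤ 10.01 ^ 3 := pow_le_pow_left₀ h0 hz' 3
  have c4 : ‖z‖ ^ 4 ≤ 10.01 ^ 4 := pow_le_pow_left₀ h0 hz' 4
  have c6 : ‖z‖ ^ 6 ≤ 10.01 ^ 6 := pow_le_pow_left₀ h0 hz' 6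
  norm_num at c2 c3 c4 c6 ⊢
  linarith

theorem asymp : ∀ᶠ k : ℕ in atTop,
    (25.8 ^ 2 : ℝ) ^ k + (24 * k + 2) * 250 ^ k < (26.2 ^ 2) ^ k := by
  have h1 : Tendsto (fun k : ℕ => ((25.8 ^ 2 / 26.2 ^ 2 : ℝ)) ^ k) atTop (𝓝 0) :=
    tendsto_pow_atTop_nhds_zero_of_lt_one (by positivity) (by norm_num)
  have h2 : Tendsto (fun k : ℕ => (k : ℝ) * ((250 / 26.2 ^ 2 : ℝ)) ^ k) atTop (𝓝 0) :=
    tendsto_self_mul_const_pow_of_lt_one (by positivity) (by norm_num)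
  have h3 : Tendsto (fun k : ℕ => ((250 / 26.2 ^ 2 : ℝ)) ^ k) atTop (𝓝 0) :=
    tendsto_pow_atTop_nhds_zero_of_lt_one (by positivity) (by norm_num)
  have h4 := (h1.add (h2.const_mul 24)).add (h3.const_mul 2)
  simp only [mul_zero, add_zero] at h4
  filter_upwards [h4.eventually_lt_const (show (0 : ℝ) < 1 by norm_num)] with k hk
  have h5 : (0 : ℝ) < (26.2 ^ 2) ^ k := by positivity
  have h6 := mul_lt_mul_of_pos_right hk h5
  rw [one_mul] at h6
  refine lt_of_le_of_lt (le_of_eq ?_) h6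
  rw [div_pow, div_pow]
  field_simp
  ring

theorem mem_shadow_E : (((1 / 100 : ℝ)) : ℂ) ∈ shadow E := by
  refine mem_shadow fun ρ hρ h => ?_
  have hE := E_barrier
  rw [← e_map] at h hE
  have hev := deriv_pos (p := e) (x := 1 / 100) h hρ (by rw [e_natDegree]; norm_num)
    (by rw [e_eval]; norm_num) (by rw [e_deriv]; norm_num) isOpen_ball isBounded_ball
    (by rw [mem_ball_zero_iff, Complex.norm_real]; norm_num [abs_of_pos]) hE
  rw [e_natDegree] at hev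
  have h2 : Tendsto (fun k : ℕ => 2 * k) atTop atTop :=
    tendsto_id.const_mul_atTop' (by norm_num : 0 < 2)
  obtain ⟨k, hk1, hk2⟩ := ((h2.eventually hev).and asymp).exists
  set n : ℕ := 2 * k with hn
  set c : ℕ → ℝ := fun m => (derivative^[m] (e ^ n)).eval (1 / 100) with hc
  have hdeg : (e ^ n).natDegree ≤ 12 * k := by
    rw [natDegree_pow, e_natDegree]; omega
  have t1 := eval_add_eq_real (e ^ n) (1 / 100) 1 hdeg
  have t2 := eval_add_eq_real (e ^ n) (1 / 100) (-1) hdeg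
  have htail : ∀ m, 11 * k ≤ m → |c m| / (m.factorial : ℝ) ≤ 250 ^ k := by
    intro m hm
    have h3 := cauchy_bound E n m ((1 / 100 : ℝ) : ℂ) (R := 10) (by norm_num) E_bound
    rw [← e_map, Q_map, Complex.norm_real, Real.norm_eq_abs] at h3
    have hf : (0 : ℝ) < (m.factorial : ℝ) := by exact_mod_cast m.factorial_pos
    rw [div_le_iff₀ hf]
    refine h3.trans ?_
    rw [mul_div_assoc, mul_comm]
    refine mul_le_mul_of_nonneg_right ?_ hf.le
    rw [div_le_iff₀ (by positivity)]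
    have h4 : (10 : ℝ) ^ (11 * k) ≤ 10 ^ m := pow_le_pow_right₀ (by norm_num) hm
    calc (5000000 : ℝ) ^ n = (5000000 ^ 2) ^ k := by rw [hn, pow_mul]
      _ = 250 ^ k * (10 ^ 11) ^ k := by rw [← mul_pow]; norm_num
      _ = 250 ^ k * 10 ^ (11 * k) := by rw [pow_mul]
      _ ≤ _ := by gcongr
  have hdiff : (e ^ n).eval (1 / 100 + -1) - (e ^ n).eval (1 / 100 + 1) ≤
      (24 * k + 2) * 250 ^ k := by
    rw [t1, t2, ← Finset.sum_sub_distrib]
    have h5 : ∀ m ∈ Finset.range (12 * k + 1),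
        (derivative^[m] (e ^ n)).eval (1 / 100) * ((-1) ^ m / (m.factorial : ℝ)) -
        (derivative^[m] (e ^ n)).eval (1 / 100) * (1 ^ m / (m.factorial : ℝ)) ≤
        2 * 250 ^ k := by
      intro m hm
      have hf : (0 : ℝ) < (m.factorial : ℝ) := by exact_mod_cast m.factorial_pos
      have e1 : (derivative^[m] (e ^ n)).eval (1 / 100) * ((-1) ^ m / (m.factorial : ℝ)) -
        (derivative^[m] (e ^ n)).eval (1 / 100) * (1 ^ m / (m.factorial : ℝ)) =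
        ((-1) ^ m - 1) * (c m / (m.factorial : ℝ)) := by
        simp only [hc]
        ring
      rw [e1]
      have h250 : (0 : ℝ) < 250 ^ k := by positivity
      rcases Nat.lt_or_ge m (11 * k) with h6 | h6
      · have h7 : 0 < c m := hk1 m (by omega) (by
          rw [hn]
          push_cast
          have : (m : ℝ) ≤ 11 * k := by exact_mod_cast h6.le
          linarith)
        have h8 : ((-1 : ℝ)) ^ m - 1 ≤ 0 := by
          rcases neg_one_pow_eq_or ℝ m with h9 | h9 <;> rw [h9] <;> norm_num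
        have h9 : 0 ≤ c m / (m.factorial : ℝ) := by positivity
        have h10 := mul_nonpos_of_nonpos_of_nonneg h8 h9
        linarith
      · have h7 := htail m h6
        have h8 : |c m / (m.factorial : ℝ)| ≤ 250 ^ k := by
          rw [abs_div, abs_of_pos hf]
          exact h7
        have h9 := abs_le.1 h8
        rcases neg_one_pow_eq_or ℝ m with h10 | h10 <;> rw [h10] <;> nlinarith
    refine (Finset.sum_le_sum h5).trans (le_of_eq ?_)
    rw [Finset.sum_const, Finset.card_range, nsmul_eq_mul]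
    push_cast
    ring
  have v1 : (26.2 ^ 2 : ℝ) ^ k ≤ (e ^ n).eval (1 / 100 + -1) := by
    rw [eval_pow, hn, pow_mul]
    refine pow_le_pow_left₀ (by positivity) ?_ k
    refine pow_le_pow_left₀ (by norm_num) ?_ 2
    rw [e_eval]
    norm_num
  have v2 : (e ^ n).eval (1 / 100 + 1) ≤ (25.8 ^ 2 : ℝ) ^ k := by
    rw [eval_pow, hn, pow_mul]
    have h0 : (0 : ℝ) ≤ e.eval (1 / 100 + 1) := by rw [e_eval]; norm_num
    refine pow_le_pow_left₀ (by positivity) ?_ k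
    refine pow_le_pow_left₀ h0 ?_ 2
    rw [e_eval]
    norm_num
  linarith

end Q73.Shadow
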