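import Pool.Agent.Q73.Sh.Bdry
import Pool.Agent.Helper114.Rat

/-!
# Rational functions are continuous maps of the Riemann sphere
-/

set_option autoImplicit false

open Polynomial Filter Topology Metric

namespace Q73.Shadow

open Pool.Agent.Helper114.Herman

theorem hom_one {P : ℂ[X]} {d : ℕ} (h : P.natDegree ≤ d) (z : ℂ) : hom P d z 1 = P.eval z := by
  rw [hom_ne h one_ne_zero]
  simp

theorem hom_scale (P : ℂ[X]) (d : ℕ) (c u v : ℂ) :
    hom P d (c * u) (c * v) = c ^ d * hom P d u v := by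
  unfold hom
  rw [Finset.mul_sum]
  refine Finset.sum_congr rfl fun k hk => ?_
  have hk' : k ≤ d := by simpa [Nat.lt_succ_iff] using hk
  rw [mul_pow, mul_pow]
  have : c ^ d = c ^ k * c ^ (d - k) := by rw [← pow_add, Nat.add_sub_cancel' hk']
  rw [this]
  ring

theorem pr_scale {c : ℂ} (hc : c ≠ 0) (u v : ℂ) : pr (c * u) (c * v) = pr u v := by
  by_cases hv : v = 0
  · rw [hv, mul_zero, pr_zero, pr_zero]
  · rw [pr_ne (mul_ne_zero hc hv), pr_ne hv, mul_div_mul_left _ _ hc]

/-- A fraction of coprime polynomials extends continuously to the sphere. -/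
theorem exists_ext {P Q : ℂ[X]} (hc : IsCoprime P Q) :
    ∃ f : OnePoint ℂ → OnePoint ℂ, Continuous f ∧
      ∀ z : ℂ, Q.eval z ≠ 0 → f z = ((P.eval z / Q.eval z : ℂ) : OnePoint ℂ) := by
  set d := max P.natDegree Q.natDegree with hd
  have hP : P.natDegree ≤ d := hd ▸ le_max_left _ _
  have hQd : Q.natDegree ≤ d := hd ▸ le_max_right _ _
  rcases Nat.eq_zero_or_pos d with h0 | hd0
  · have hp : P.natDegree = 0 := by omega
    have hq : Q.natDegree = 0 := by omega
    refine ⟨fun _ => ((P.eval 0 / Q.eval 0 : ℂ) : OnePoint ℂ), continuous_const, fun z hz => ?_⟩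
    rw [eq_C_of_natDegree_eq_zero hp, eq_C_of_natDegree_eq_zero hq]
    simp
  · set f : OnePoint ℂ → OnePoint ℂ := fun w =>
      w.elim (pr (hom P d 1 0) (hom Q d 1 0)) (fun z => pr (hom P d z 1) (hom Q d z 1)) with hf
    have hfc : ∀ z : ℂ, f (z : OnePoint ℂ) = pr (hom P d z 1) (hom Q d z 1) := fun z => rfl
    have hfi : f OnePoint.infty = pr (hom P d 1 0) (hom Q d 1 0) := rfl
    have hcont : ∀ u v : ℂ, (u ≠ 0 ∨ v ≠ 0) →
        ContinuousAt (fun p : ℂ × ℂ => pr (hom P d p.1 p.2) (hom Q d p.1 p.2)) (u, v) := by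
      intro u v h
      exact ContinuousAt.comp (g := fun p : ℂ × ℂ => pr p.1 p.2)
        (f := fun p : ℂ × ℂ => (hom P d p.1 p.2, hom Q d p.1 p.2)) (x := (u, v))
        (continuousAt_pr (hom_not_both hc hd h hd0))
        ((continuous_hom P d).continuousAt.prodMk (continuous_hom Q d).continuousAt)
    refine ⟨f, ?_, fun z hz => ?_⟩
    · rw [OnePoint.continuous_iff]
      constructor
      · rw [coclosedCompact_eq_cocompact, hfi, ← Metric.cobounded_eq_cocompact]
        have h1 : Tendsto (fun z : ℂ => ((1 : ℂ), z⁻¹)) (Bornology.cobounded ℂ)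
            (𝓝 ((1 : ℂ), (0 : ℂ))) :=
          tendsto_const_nhds.prodMk_nhds tendsto_inv₀_cobounded
        have h2 := (hcont 1 0 (Or.inl one_ne_zero)).tendsto.comp h1
        refine h2.congr' ?_
        filter_upwards [Bornology.eventually_ne_cobounded (0 : ℂ)] with z hz
        simp only [Function.comp_apply]
        rw [hfc]
        have e1 : hom P d z 1 = z ^ d * hom P d 1 z⁻¹ := by
          rw [← hom_scale, mul_one, mul_inv_cancel₀ hz]
        have e2 : hom Q d z 1 = z ^ d * hom Q d 1 z⁻¹ := by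
          rw [← hom_scale, mul_one, mul_inv_cancel₀ hz]
        rw [e1, e2, pr_scale (pow_ne_zero _ hz)]
      · rw [continuous_iff_continuousAt]
        intro z
        have h1 : ContinuousAt (fun z : ℂ => (z, (1 : ℂ))) z := by fun_prop
        exact ContinuousAt.comp (g := fun p : ℂ × ℂ => pr (hom P d p.1 p.2) (hom Q d p.1 p.2))
          (f := fun z : ℂ => (z, (1 : ℂ))) (x := z) (hcont z 1 (Or.inr one_ne_zero)) h1
    · rw [hfc, hom_one hP, hom_one hQd, pr_ne hz]

/-- Every rational function extends continuously to the sphere. -/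
theorem exists_ext' {P Q : ℂ[X]} (hQ : Q ≠ 0) :
    ∃ f : OnePoint ℂ → OnePoint ℂ, Continuous f ∧
      ∀ z : ℂ, Q.eval z ≠ 0 → f z = ((P.eval z / Q.eval z : ℂ) : OnePoint ℂ) := by
  classical
  have hg : GCDMonoid.gcd P Q ≠ 0 := fun h => hQ ((gcd_eq_zero_iff P Q).1 h).2
  have hcop' := isCoprime_div_gcd_div_gcd_of_gcd_ne_zero hg
  obtain ⟨p, hp⟩ := gcd_dvd_left P Q
  obtain ⟨q, hq⟩ := gcd_dvd_right P Q
  generalize GCDMonoid.gcd P Q = g at hg hp hq hcop'
  subst hp
  subst hq
  have hcop : IsCoprime p q := by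
    rwa [mul_div_cancel_left₀ p hg, mul_div_cancel_left₀ q hg] at hcop'
  obtain ⟨f, hf, h⟩ := exists_ext hcop
  refine ⟨f, hf, fun z hz => ?_⟩
  rw [eval_mul] at hz
  rw [h z (right_ne_zero_of_mul hz)]
  congr 1
  rw [eval_mul, eval_mul, mul_div_mul_left _ _ (left_ne_zero_of_mul hz)]

/-- The maps `z - α P(z) / P'(z)` exist. -/
theorem exists_newton {P : ℂ[X]} (hP : derivative P ≠ 0) (α : ℝ) : ∃ F, IsNewton P α F := by
  obtain ⟨f, hf, h⟩ := exists_ext' (P := X * derivative P - C (α : ℂ) * P) hP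
  refine ⟨f, hf, fun z hz => ?_⟩
  rw [h z hz]
  congr 1
  simp only [eval_sub, eval_mul, eval_X, eval_C]
  field_simp

end Q73.Shadow
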