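import Pool.Agent.Q73.Sh.Rec

/-!
# The escape theorem
-/

set_option autoImplicit false

open Polynomial Filter Topology Metric

namespace Q73.Shadow

variable {P : ℂ[X]} {u : ℂ} {ρ : ℝ}

theorem rr_zero (h : Free P u ρ) (hρ : 0 < ρ) {n : ℕ} (hn : 1 ≤ n) :
    rr P u n 0 = (derivative P).eval u / P.eval u := by
  have hP : P.eval u ≠ 0 := by
    have := h.eval_ne hρ le_rfl (Nat.zero_le (1 * P.natDegree))
    rwa [Q_zero, pow_one] at this
  have hnc : (n : ℂ) ≠ 0 := by exact_mod_cast (by omega : n ≠ 0)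
  unfold rr
  rw [Q_succ, Q_zero]
  obtain ⟨k, rfl⟩ : ∃ k, n = k + 1 := ⟨n - 1, by omega⟩
  rw [derivative_pow, map_natCast, Nat.add_sub_cancel]
  simp only [eval_mul, eval_natCast, eval_pow]
  rw [pow_succ]
  field_simp

/-- near the start -/
theorem start (h : Free P u ρ) (hρ : 0 < ρ) (hd : 1 ≤ P.natDegree) {r0 : ℂ}
    (hr0 : r0 = (derivative P).eval u / P.eval u) (hr : r0 ≠ 0) {C : ℝ}
    (hC : C = 8 * P.natDegree / ρ ^ 2) {n : ℕ} (hn : 1 ≤ n) (m : ℕ) :
    m < n * P.natDegree → (m : ℝ) / n ≤ ‖r0‖ ^ 2 / (4 * C) →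
      ‖rr P u n m - r0‖ ≤ 2 * C / ‖r0‖ * ((m : ℝ) / n) := by
  have hn' : (0 : ℝ) < n := by exact_mod_cast hn
  have hd' : (0 : ℝ) < P.natDegree := by exact_mod_cast hd
  have hCpos : 0 < C := by rw [hC]; positivity
  have hrp : 0 < ‖r0‖ := norm_pos_iff.2 hr
  induction m with
  | zero =>
    intro _ _
    rw [rr_zero h hρ hn, ← hr0]
    simp
  | succ m ih =>
    intro hm hτ
    have hmm : (m : ℝ) / n ≤ ((m + 1 : ℕ) : ℝ) / n := by
      apply div_le_div_of_nonneg_right _ hn'.le
      push_cast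
      linarith
    have h1 := ih (by omega) (hmm.trans hτ)
    have h2 : ‖rr P u n m - r0‖ ≤ ‖r0‖ / 2 := by
      refine h1.trans ?_
      calc 2 * C / ‖r0‖ * ((m : ℝ) / n) ≤ 2 * C / ‖r0‖ * (‖r0‖ ^ 2 / (4 * C)) :=
            mul_le_mul_of_nonneg_left (hmm.trans hτ) (by positivity)
        _ = ‖r0‖ / 2 := by field_simp; norm_num
    have h3 : ‖r0‖ / 2 ≤ ‖rr P u n m‖ := by
      have := norm_sub_norm_le r0 (rr P u n m)
      rw [norm_sub_rev] at this
      linarith
    have h4 := h.step hρ hn (m := m) hm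
    have h5 : ‖rr P u n (m + 1) - rr P u n m‖ ≤ 2 * C / ‖r0‖ * (1 / n) := by
      rw [← hC] at h4
      have h6 : ‖rr P u n (m + 1) - rr P u n m‖ * (n * (‖r0‖ / 2)) ≤ C := by
        refine le_trans ?_ h4
        gcongr
      have h7 : ‖rr P u n (m + 1) - rr P u n m‖ ≤ C / (n * (‖r0‖ / 2)) := by
        rw [le_div_iff₀ (by positivity)]
        exact h6
      refine h7.trans (le_of_eq ?_)
      field_simp
    calc ‖rr P u n (m + 1) - r0‖ = ‖(rr P u n (m + 1) - rr P u n m) + (rr P u n m - r0)‖ := by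
          congr 1; ring
      _ ≤ _ := norm_add_le _ _
      _ ≤ 2 * C / ‖r0‖ * (1 / n) + 2 * C / ‖r0‖ * ((m : ℝ) / n) := add_le_add h5 h1
      _ = _ := by push_cast; ring

theorem start_le (h : Free P u ρ) (hρ : 0 < ρ) (hd : 1 ≤ P.natDegree) {r0 : ℂ}
    (hr0 : r0 = (derivative P).eval u / P.eval u) (hr : r0 ≠ 0) {C : ℝ}
    (hC : C = 8 * P.natDegree / ρ ^ 2) {n : ℕ} (hn : 1 ≤ n) (m : ℕ)
    (hm : m < n * P.natDegree) (hτ : (m : ℝ) / n ≤ ‖r0‖ ^ 2 / (4 * C)) :
    ‖r0‖ / 2 ≤ ‖rr P u n m‖ := by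
  have hn' : (0 : ℝ) < n := by exact_mod_cast hn
  have hd' : (0 : ℝ) < P.natDegree := by exact_mod_cast hd
  have hCpos : 0 < C := by rw [hC]; positivity
  have hrp : 0 < ‖r0‖ := norm_pos_iff.2 hr
  have h1 := start h hρ hd hr0 hr hC hn m hm hτ
  have h2 : ‖rr P u n m - r0‖ ≤ ‖r0‖ / 2 := by
    refine h1.trans ?_
    calc 2 * C / ‖r0‖ * ((m : ℝ) / n) ≤ 2 * C / ‖r0‖ * (‖r0‖ ^ 2 / (4 * C)) :=
          mul_le_mul_of_nonneg_left hτ (by positivity)
      _ = ‖r0‖ / 2 := by field_simp; norm_num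
  have := norm_sub_norm_le r0 (rr P u n m)
  rw [norm_sub_rev] at this
  linarith

/-- the approximate saddle points -/
noncomputable def zz (P : ℂ[X]) (u : ℂ) (n m : ℕ) : ℂ := u + (m : ℂ) / n * (rr P u n m)⁻¹

/-- **Escape theorem.** -/
theorem not_free (hd : 1 ≤ P.natDegree) {D : Set ℂ} (hD : IsOpen D)
    (hb : Bornology.IsBounded D) (hu : u ∈ D)
    (hbar : ∀ z ∈ frontier D, ∀ α ∈ Set.Icc (0:ℝ) P.natDegree,
      (z - u) * (derivative P).eval z ≠ α * P.eval z) (hρ : 0 < ρ) : ¬ Free P u ρ := by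
  intro h
  have hd' : (0 : ℝ) < P.natDegree := by exact_mod_cast hd
  obtain ⟨R0, hR0, hDR⟩ : ∃ R0 : ℝ, 0 < R0 ∧ D ⊆ ball u R0 := by
    obtain ⟨R, hR⟩ := hb.subset_ball u
    exact ⟨max R 1, by positivity, hR.trans (ball_subset_ball (le_max_left _ _))⟩
  obtain ⟨n1, hn1⟩ := exists_nat_gt (R0 / ρ + 2)
  have hn1' : 2 ≤ n1 := by
    have : (2 : ℝ) < n1 := by
      have : 0 < R0 / ρ := by positivity
      linarith
    exact_mod_cast this.le
  set N : ℕ → ℕ := fun i => i + n1 with hN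
  have hN1 : ∀ i, 1 ≤ N i := fun i => by simp only [hN]; omega
  have hNpos : ∀ i, (0 : ℝ) < N i := fun i => by exact_mod_cast hN1 i
  -- exit exists
  have hex : ∀ i, ∃ m, m < N i * P.natDegree ∧ zz P u (N i) m ∉ D := by
    intro i
    have hNd : 2 ≤ N i * P.natDegree := by
      have h1 : 2 ≤ N i := by simp only [hN]; omega
      calc 2 = 2 * 1 := rfl
        _ ≤ N i * P.natDegree := Nat.mul_le_mul h1 hd
    refine ⟨N i * P.natDegree - 1, by omega, fun hz => ?_⟩
    have h1 := hDR hz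
    rw [mem_ball, dist_eq_norm] at h1
    unfold zz at h1
    rw [add_sub_cancel_left, norm_mul, norm_inv, norm_div, Complex.norm_natCast,
      Complex.norm_natCast] at h1
    have h2 := h.norm_rr_le hρ (hN1 i) (m := N i * P.natDegree - 1) (by omega)
    rw [show N i * P.natDegree - (N i * P.natDegree - 1) = 1 by omega] at h2
    have h3 : 0 < ‖rr P u (N i) (N i * P.natDegree - 1)‖ :=
      norm_pos_iff.2 (h.rr_ne hρ (hN1 i) (by omega))
    have h4 : (N i : ℝ) * ρ ≤ ‖rr P u (N i) (N i * P.natDegree - 1)‖⁻¹ := by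
      rw [le_inv_comm₀ (by have := hNpos i; positivity) h3]
      refine h2.trans (le_of_eq ?_)
      push_cast
      rw [one_div]
    have h5 : ((N i * P.natDegree - 1 : ℕ) : ℝ) = N i * P.natDegree - 1 := by
      rw [Nat.cast_sub (by omega)]
      push_cast
      ring
    have h6 : ((N i : ℝ) * P.natDegree - 1) * ρ < R0 := by
      refine lt_of_le_of_lt ?_ h1
      rw [h5]
      calc ((N i : ℝ) * P.natDegree - 1) * ρ = ((N i : ℝ) * P.natDegree - 1) / N i * (N i * ρ) := by
            have := (hNpos i).ne'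
            field_simp
        _ ≤ _ := by
            refine mul_le_mul_of_nonneg_left h4 ?_
            refine div_nonneg ?_ (hNpos i).le
            have : (2 : ℝ) ≤ N i * P.natDegree := by exact_mod_cast hNd
            linarith
    have h7 : R0 / ρ + 2 < N i := by
      refine hn1.trans_le ?_
      simp only [hN]
      push_cast
      linarith [(Nat.cast_nonneg i : (0 : ℝ) ≤ i)]
    have h8 : (N i : ℝ) ≤ N i * P.natDegree := by
      have : (1 : ℝ) ≤ P.natDegree := by exact_mod_cast hd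
      nlinarith [hNpos i]
    have h9 : (N i : ℝ) * P.natDegree - 1 < R0 / ρ := by
      rw [lt_div_iff₀ hρ]
      exact h6
    linarith
  classical
  set M : ℕ → ℕ := fun i => Nat.find (hex i) with hM
  have hM1 : ∀ i, M i < N i * P.natDegree := fun i => (Nat.find_spec (hex i)).1
  have hM2 : ∀ i, zz P u (N i) (M i) ∉ D := fun i => (Nat.find_spec (hex i)).2
  have hM3 : ∀ i m, m < M i → zz P u (N i) m ∈ D := by
    intro i m hm
    by_contra hc
    exact Nat.find_min (hex i) hm ⟨hm.trans (hM1 i), hc⟩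
  have hM0 : ∀ i, 1 ≤ M i := by
    intro i
    by_contra hc
    have h0 : M i = 0 := by omega
    apply hM2 i
    rw [h0]
    unfold zz
    simpa using hu
  -- lower bound
  set C : ℝ := 8 * P.natDegree / ρ ^ 2 with hC
  have hCpos : 0 < C := by positivity
  set r0 : ℂ := (derivative P).eval u / P.eval u with hr0
  have hr : r0 ≠ 0 := by
    have e : rr P u 1 0 = r0 := rr_zero h hρ le_rfl
    rw [← e]
    exact h.rr_ne hρ le_rfl (by omega)
  have hrp : 0 < ‖r0‖ := norm_pos_iff.2 hr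
  set τ : ℝ := ‖r0‖ ^ 2 / (4 * C) with hτ
  have hτpos : 0 < τ := by positivity
  obtain ⟨δ, hδ, hlow⟩ : ∃ δ : ℝ, 0 < δ ∧ ∀ i m, m < M i → δ ≤ ‖rr P u (N i) m‖ := by
    refine ⟨min (‖r0‖ / 2) (τ / R0), by positivity, fun i m hm => ?_⟩
    rcases le_or_gt ((m : ℝ) / N i) τ with h1 | h1
    · exact (min_le_left _ _).trans
        (start_le h hρ hd hr0 hr hC (hN1 i) m (hm.trans (hM1 i)) h1)
    · refine (min_le_right _ _).trans ?_
      have h2 := hDR (hM3 i m hm)
      rw [mem_ball, dist_eq_norm] at h2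
      unfold zz at h2
      rw [add_sub_cancel_left, norm_mul, norm_inv, norm_div, Complex.norm_natCast,
        Complex.norm_natCast] at h2
      have h3 : 0 < ‖rr P u (N i) m‖ :=
        norm_pos_iff.2 (h.rr_ne hρ (hN1 i) (hm.trans (hM1 i)))
      rw [← div_eq_mul_inv, div_lt_iff₀ h3] at h2
      rw [div_le_iff₀ hR0]
      linarith
  -- steps
  have hstep : ∀ i j, ‖rr P u (N i) (M i - j) - rr P u (N i) (M i - (j + 1))‖ ≤
      C / δ * (N i : ℝ)⁻¹ := by
    intro i j
    have hNi := hNpos i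
    rcases Nat.lt_or_ge j (M i) with hj | hj
    · have e : M i - j = (M i - (j + 1)) + 1 := by omega
      have h1 := h.step hρ (hN1 i) (m := M i - (j + 1)) (by have := hM1 i; omega)
      rw [← e, ← hC] at h1
      have h2 := hlow i (M i - (j + 1)) (by omega)
      have h3 : ‖rr P u (N i) (M i - j) - rr P u (N i) (M i - (j + 1))‖ * (N i * δ) ≤ C := by
        refine le_trans ?_ h1
        gcongr
      rw [← le_div_iff₀ (by positivity)] at h3
      refine h3.trans (le_of_eq ?_)
      field_simp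
    · rw [show M i - j = 0 by omega, show M i - (j + 1) = 0 by omega, sub_self, norm_zero]
      positivity
  -- compactness
  have hK : IsCompact (Set.Icc (0 : ℝ) P.natDegree ×ˢ closedBall (0 : ℂ) (P.natDegree / ρ)) :=
    isCompact_Icc.prod (isCompact_closedBall _ _)
  obtain ⟨⟨α, r⟩, hαr, φ, hφ, hlim⟩ := hK.tendsto_subseq
    (x := fun i => ((M i : ℝ) / N i, rr P u (N i) (M i - 1))) (by
      intro i
      refine ⟨⟨by positivity, ?_⟩, ?_⟩
      · rw [div_le_iff₀ (hNpos i)]
        have := (hM1 i).le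
        calc (M i : ℝ) ≤ ((N i * P.natDegree : ℕ) : ℝ) := by exact_mod_cast this
          _ = _ := by push_cast; ring
      · rw [mem_closedBall_zero_iff]
        have h1 := h.norm_rr_le hρ (hN1 i) (m := M i - 1) (by have := hM1 i; omega)
        refine h1.trans ?_
        have h2 : ((N i * P.natDegree - (M i - 1) : ℕ) : ℝ) ≤ N i * P.natDegree := by
          have : N i * P.natDegree - (M i - 1) ≤ N i * P.natDegree := Nat.sub_le _ _
          exact_mod_cast this
        rw [div_le_div_iff₀ (by have := hNpos i; positivity) hρ]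
        nlinarith [mul_le_mul_of_nonneg_right h2 hρ.le])
  have hlim1 : Tendsto (fun i => (M (φ i) : ℝ) / N (φ i)) atTop (𝓝 α) :=
    (continuous_fst.tendsto _).comp hlim
  have hlim2 : Tendsto (fun i => rr P u (N (φ i)) (M (φ i) - 1)) atTop (𝓝 r) :=
    (continuous_snd.tendsto _).comp hlim
  have hNinv : Tendsto (fun i => ((N (φ i) : ℝ))⁻¹) atTop (𝓝 0) := by
    refine tendsto_inv_atTop_zero.comp (tendsto_natCast_atTop_atTop.comp ?_)
    refine tendsto_atTop_mono (fun i => ?_) tendsto_id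
    simp only [hN, id]
    have := hφ.id_le i
    simp only [id] at this
    omega
  have hrδ : δ ≤ ‖r‖ := by
    refine ge_of_tendsto' hlim2.norm fun i => ?_
    exact hlow _ _ (by have := hM0 (φ i); omega)
  have hr_ne : r ≠ 0 := by
    rintro rfl
    rw [norm_zero] at hrδ
    linarith
  have hdiff : ∀ j, Tendsto (fun i => rr P u (N (φ i)) (M (φ i) - j) -
      rr P u (N (φ i)) (M (φ i) - (j + 1))) atTop (𝓝 0) := by
    intro j
    refine squeeze_zero_norm (fun i => hstep (φ i) j) ?_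
    simpa using hNinv.const_mul (C / δ)
  have hall : ∀ j, Tendsto (fun i => rr P u (N (φ i)) (M (φ i) - (j + 1))) atTop (𝓝 r) := by
    intro j
    induction j with
    | zero => simpa using hlim2
    | succ j ih =>
      have := ih.sub (hdiff (j + 1))
      simpa using this
  have hall' : ∀ j, Tendsto (fun i => rr P u (N (φ i)) (M (φ i) - j)) atTop (𝓝 r) := by
    intro j
    have := (hall j).add (hdiff j)
    simpa using this
  have hNinvC : Tendsto (fun i => ((N (φ i) : ℂ))⁻¹) atTop (𝓝 0) := by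
    have := (Complex.continuous_ofReal.tendsto 0).comp hNinv
    simpa [Function.comp_def] using this
  have hαC : Tendsto (fun i => (M (φ i) : ℂ) / N (φ i)) atTop (𝓝 (α : ℂ)) := by
    have := (Complex.continuous_ofReal.tendsto α).comp hlim1
    simpa [Function.comp_def] using this
  have haa : ∀ k, Tendsto (fun i => aa P u (N (φ i)) (M (φ i)) k) atTop
      (𝓝 ((α : ℂ) ^ k / (k.factorial : ℂ) * (r⁻¹) ^ k)) := by
    intro k
    have e : ∀ i, aa P u (N (φ i)) (M (φ i)) k =
        (((M (φ i)).choose k : ℂ) / (N (φ i) : ℂ) ^ k) *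
        ∏ j ∈ Finset.range k, (rr P u (N (φ i)) (M (φ i) - (j + 1)))⁻¹ :=
      fun i => aa_eq h hρ (hN1 _) (hM1 _) k
    simp_rw [e]
    refine (choose_tendsto _ _ hNinvC hαC k).mul ?_
    have h1 : Tendsto (fun i => ∏ j ∈ Finset.range k,
        (rr P u (N (φ i)) (M (φ i) - (j + 1)))⁻¹) atTop (𝓝 (∏ _j ∈ Finset.range k, r⁻¹)) :=
      tendsto_finsetProd _ fun j _ => (hall j).inv₀ hr_ne
    simpa using h1
  -- the limit relation
  set z : ℂ := u + (α : ℂ) * r⁻¹ with hz
  have hrel : r * P.eval z = (derivative P).eval z := by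
    have h1 : Tendsto (fun i => ∑ k ∈ Finset.range (P.natDegree + 1),
        (derivative^[k] P).eval u * (aa P u (N (φ i)) (M (φ i)) k *
          rr P u (N (φ i)) (M (φ i) - k))) atTop
        (𝓝 (∑ k ∈ Finset.range (P.natDegree + 1), (derivative^[k] P).eval u *
          ((α : ℂ) ^ k / (k.factorial : ℂ) * (r⁻¹) ^ k * r))) :=
      tendsto_finsetSum _ fun k _ => ((haa k).mul (hall' k)).const_mul _
    have h2 : Tendsto (fun i => ∑ k ∈ Finset.range (P.natDegree + 1),
        (derivative^[k + 1] P).eval u * aa P u (N (φ i)) (M (φ i)) k) atTop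
        (𝓝 (∑ k ∈ Finset.range (P.natDegree + 1), (derivative^[k + 1] P).eval u *
          ((α : ℂ) ^ k / (k.factorial : ℂ) * (r⁻¹) ^ k))) :=
      tendsto_finsetSum _ fun k _ => (haa k).const_mul _
    have h3 := tendsto_nhds_unique (h1.congr fun i => recursion h hρ (hN1 _) (hM1 _)) h2
    have e1 := eval_add_eq P u ((α : ℂ) * r⁻¹) le_rfl
    have e2 := eval_add_eq (derivative P) u ((α : ℂ) * r⁻¹) (d := P.natDegree)
      ((natDegree_derivative_le P).trans (Nat.sub_le _ _))
    rw [hz, e1, e2, Finset.mul_sum]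
    convert h3 using 2
    · rw [mul_pow]; ring
    · rw [mul_pow, Function.iterate_succ_apply]; ring
  -- the limit point is on the frontier
  have hzlim : ∀ j, j ≤ 1 → Tendsto (fun i => zz P u (N (φ i)) (M (φ i) - j)) atTop (𝓝 z) := by
    intro j hj
    unfold zz
    refine Tendsto.const_add u (Tendsto.mul ?_ ((hall' j).inv₀ hr_ne))
    have e : ∀ i, ((M (φ i) - j : ℕ) : ℂ) / N (φ i) =
        (M (φ i) : ℂ) / N (φ i) - j * ((N (φ i) : ℂ))⁻¹ := by
      intro i
      have := hM0 (φ i)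
      rw [Nat.cast_sub (by omega), sub_div, div_eq_mul_inv (j : ℂ)]
    simp_rw [e]
    simpa using hαC.sub (hNinvC.const_mul (j : ℂ))
  have hfr : z ∈ frontier D := by
    rw [frontier, hD.interior_eq]
    refine ⟨?_, ?_⟩
    · refine mem_closure_of_tendsto (hzlim 1 le_rfl) (Eventually.of_forall fun i => ?_)
      exact hM3 _ _ (by have := hM0 (φ i); omega)
    · have h1 : z ∈ closure Dᶜ := by
        refine mem_closure_of_tendsto (hzlim 0 zero_le_one) (Eventually.of_forall fun i => ?_)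
        simpa using hM2 (φ i)
      rw [hD.isClosed_compl.closure_eq] at h1
      exact h1
  refine hbar z hfr α hαr.1 ?_
  rw [← hrel, hz]
  field_simp
  ring

end Q73.Shadow
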