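import Pool.Agent.Q73.Sh.Crit2

/-!
# The maps `z - α P(z) / P'(z)` of the Riemann sphere
-/

set_option autoImplicit false

open Polynomial Filter Topology Metric

namespace Q73.Shadow

/-- `F` is the rational map `z - α P(z) / P'(z)` of the Riemann sphere. -/
def IsNewton (P : ℂ[X]) (α : ℝ) (F : OnePoint ℂ → OnePoint ℂ) : Prop :=
  Continuous F ∧ ∀ z : ℂ, (derivative P).eval z ≠ 0 →
    F z = ((z - α * (P.eval z / (derivative P).eval z) : ℂ) : OnePoint ℂ)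

/-- the finite formula -/
noncomputable def ff (α : ℝ) (z : ℂ) : ℂ := z - α * (nA z / nB z)

theorem E'_finite : {z : ℂ | (derivative E).eval z = 0}.Finite := by
  have h0 : derivative E ≠ 0 := by
    intro h
    have := derivative_eq_zero.1 h
    rw [E_natDegree] at this
    omega
  refine ((derivative E).roots.toFinset.finite_toSet).subset ?_
  intro z hz
  simp only [Finset.mem_coe, Multiset.mem_toFinset]
  exact (mem_roots h0).2 hz

theorem ev_ne {l : Filter ℂ} (hl : l ≤ cofinite) :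
    ∀ᶠ z in l, (derivative E).eval z ≠ 0 := hl E'_finite.compl_mem_cofinite

theorem newton_eq {α : ℝ} {F : OnePoint ℂ → OnePoint ℂ} (hF : IsNewton E α F) {z : ℂ}
    (hz : (derivative E).eval z ≠ 0) : F z = (ff α z : OnePoint ℂ) := by
  rw [hF.2 z hz]
  congr 1
  unfold ff
  rw [E_eq, E'_eq]
  rw [E'_eq] at hz
  rw [mul_div_mul_left _ _ (left_ne_zero_of_mul hz)]

theorem tendsto_ff {α : ℝ} {F : OnePoint ℂ → OnePoint ℂ} (hF : IsNewton E α F) {l : Filter ℂ}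
    (hl : l ≤ cofinite) {w : OnePoint ℂ} (hw : Tendsto ((↑) : ℂ → OnePoint ℂ) l (𝓝 w)) {v : ℂ}
    (hv : F w = (v : OnePoint ℂ)) : Tendsto (ff α) l (𝓝 v) := by
  have h1 : Tendsto (fun z : ℂ => F z) l (𝓝 (v : OnePoint ℂ)) := by
    rw [← hv]
    exact (hF.1.tendsto w).comp hw
  have h2 : Tendsto (fun z : ℂ => (ff α z : OnePoint ℂ)) l (𝓝 (v : OnePoint ℂ)) := by
    refine h1.congr' ?_
    filter_upwards [ev_ne hl] with z hz
    exact newton_eq hF hz
  exact (OnePoint.isOpenEmbedding_coe.isEmbedding.tendsto_nhds_iff).2 h2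

theorem nA_cont : Continuous nA := by unfold nA; fun_prop

theorem nB_cont : Continuous nB := by unfold nB; fun_prop

theorem nB_ne {z : ℂ} (h : (derivative E).eval z ≠ 0) : nB z ≠ 0 := by
  rw [E'_eq] at h
  exact right_ne_zero_of_mul h

theorem GG_of_eq {α : ℝ} {F : OnePoint ℂ → OnePoint ℂ} (hF : IsNewton E α F) {z₀ v : ℂ}
    (hv : F (z₀ : OnePoint ℂ) = (v : OnePoint ℂ)) : GG v α z₀ = 0 := by
  have hl : 𝓝[≠] z₀ ≤ cofinite := nhdsNE_le_cofinite z₀
  have h1 := tendsto_ff hF hl (w := (z₀ : OnePoint ℂ))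
    ((OnePoint.continuous_coe.tendsto z₀).mono_left nhdsWithin_le_nhds) hv
  have h2 : Tendsto (fun z => ff α z * nB z) (𝓝[≠] z₀) (𝓝 (v * nB z₀)) :=
    h1.mul ((nB_cont.tendsto z₀).mono_left nhdsWithin_le_nhds)
  have h3 : Tendsto (fun z => z * nB z - α * nA z) (𝓝[≠] z₀) (𝓝 (z₀ * nB z₀ - α * nA z₀)) := by
    have hc : Continuous fun z => z * nB z - α * nA z := by
      have := nA_cont
      have := nB_cont
      fun_prop
    exact (hc.tendsto z₀).mono_left nhdsWithin_le_nhds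
  have h4 := tendsto_nhds_unique (h2.congr' (by
    filter_upwards [ev_ne hl] with z hz
    have := nB_ne hz
    unfold ff
    field_simp)) h3
  rw [GG_eq]
  linear_combination -h4

theorem nA_ne {z : ℂ} (h : nB z = 0) : nA z ≠ 0 := by
  intro h2
  -- a Bezout relation
  unfold nB at h
  unfold nA at h2
  rcases mul_eq_zero.1 h with h3 | h3
  · have hz : z = 0 := by simpa using h3
    rw [hz] at h2
    norm_num at h2
  · have e1 : z = 7 / 2 := by
      linear_combination -4 * h2 + 4 * (z ^ 2 / 2 + 3 / 8) * h3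
    rw [e1] at h3
    norm_num at h3

theorem nA_deriv (z : ℂ) : HasStrictDerivAt nA (8 * z ^ 3 - 3 * z ^ 2 + 6 * z - 1) z := by
  have h1 : HasStrictDerivAt (fun z : ℂ => 2 * z ^ 4 - z ^ 3 + 3 * z ^ 2 - z + 2)
      (2 * (((4 : ℕ) : ℂ) * z ^ (4 - 1)) - ((3 : ℕ) : ℂ) * z ^ (3 - 1) +
        3 * (((2 : ℕ) : ℂ) * z ^ (2 - 1)) - 1) z :=
    (((((hasStrictDerivAt_pow 4 z).const_mul 2).sub (hasStrictDerivAt_pow 3 z)).add
      ((hasStrictDerivAt_pow 2 z).const_mul 3)).sub (hasStrictDerivAt_id z)).add_const 2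
  have e : nA = fun z : ℂ => 2 * z ^ 4 - z ^ 3 + 3 * z ^ 2 - z + 2 := by
    funext z; unfold nA; ring
  rw [e]
  convert h1 using 1
  push_cast
  ring

theorem nB_deriv (z : ℂ) : HasStrictDerivAt nB (36 * z ^ 2 - 12 * z + 9) z := by
  have h1 : HasStrictDerivAt (fun z : ℂ => 12 * z ^ 3 - 6 * z ^ 2 + 9 * z)
      (12 * (((3 : ℕ) : ℂ) * z ^ (3 - 1)) - 6 * (((2 : ℕ) : ℂ) * z ^ (2 - 1)) + 9 * 1) z :=
    (((hasStrictDerivAt_pow 3 z).const_mul 12).sub ((hasStrictDerivAt_pow 2 z).const_mul 6)).add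
      ((hasStrictDerivAt_id z).const_mul 9)
  have e : nB = fun z : ℂ => 12 * z ^ 3 - 6 * z ^ 2 + 9 * z := by
    funext z; unfold nB; ring
  rw [e]
  convert h1 using 1
  push_cast
  ring

/-- local injectivity at finite points -/
theorem inj_finite {α : ℝ} {F : OnePoint ℂ → OnePoint ℂ} (hF : IsNewton E α F) {z₀ v : ℂ}
    (hv : F (z₀ : OnePoint ℂ) = (v : OnePoint ℂ))
    (hno : ∀ z, ¬ (GG v α z = 0 ∧ GG' v α z = 0)) :
    ∃ U ∈ 𝓝 (z₀ : OnePoint ℂ), Set.InjOn F U := by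
  have hG := GG_of_eq hF hv
  have hG' : GG' v α z₀ ≠ 0 := fun h => hno z₀ ⟨hG, h⟩
  have hB : nB z₀ ≠ 0 := by
    intro h0
    have h1 := hG
    rw [GG_eq, h0, mul_zero, zero_sub, neg_eq_zero] at h1
    have hα : (α : ℂ) = 0 := (mul_eq_zero.1 h1).resolve_right (nA_ne h0)
    have hl : 𝓝[≠] z₀ ≤ cofinite := nhdsNE_le_cofinite z₀
    have h2 := tendsto_ff hF hl (w := (z₀ : OnePoint ℂ))
      ((OnePoint.continuous_coe.tendsto z₀).mono_left nhdsWithin_le_nhds) hv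
    have h3 : ff α = fun z => z := by
      funext z
      unfold ff
      rw [hα]
      ring
    rw [h3] at h2
    have h4 : z₀ = v := tendsto_nhds_unique
      (continuous_id.continuousAt.tendsto.mono_left nhdsWithin_le_nhds) h2
    apply hG'
    have h5 : GG' v α z₀ = nB z₀ + (z₀ - v) * (36 * z₀ ^ 2 - 12 * z₀ + 9) -
        α * (8 * z₀ ^ 3 - 3 * z₀ ^ 2 + 6 * z₀ - 1) := by
      unfold GG' nB; ring
    rw [h5, h0, h4, hα]
    ring
  have hGq : (z₀ - v) * nB z₀ = α * nA z₀ := by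
    rw [GG_eq] at hG
    linear_combination hG
  set A' : ℂ := 8 * z₀ ^ 3 - 3 * z₀ ^ 2 + 6 * z₀ - 1 with hA'
  set B' : ℂ := 36 * z₀ ^ 2 - 12 * z₀ + 9 with hB'
  have hd : HasStrictDerivAt (ff α) (1 - α * ((A' * nB z₀ - nA z₀ * B') / nB z₀ ^ 2)) z₀ :=
    (hasStrictDerivAt_id z₀).sub (((nA_deriv z₀).div (nB_deriv z₀) hB).const_mul (α : ℂ))
  have hd0 : 1 - (α : ℂ) * ((A' * nB z₀ - nA z₀ * B') / nB z₀ ^ 2) ≠ 0 := by
    intro h
    apply hG'
    have h5 : GG' v α z₀ = nB z₀ + (z₀ - v) * B' - α * A' := by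
      rw [hA', hB']; unfold GG' nB; ring
    have h6 : nB z₀ ^ 2 - α * (A' * nB z₀ - nA z₀ * B') = 0 := by
      have h7 : nB z₀ ^ 2 - α * (A' * nB z₀ - nA z₀ * B') =
          nB z₀ ^ 2 * (1 - (α : ℂ) * ((A' * nB z₀ - nA z₀ * B') / nB z₀ ^ 2)) := by
        field_simp
      rw [h7, h, mul_zero]
    have h8 : GG' v α z₀ * nB z₀ = 0 := by
      rw [h5]
      linear_combination h6 + B' * hGq
    exact (mul_eq_zero.1 h8).resolve_right hB
  -- the inverse function theorem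
  have hf := hd.hasStrictFDerivAt_equiv hd0
  set e := hf.toOpenPartialHomeomorph (ff α) with he
  have hs : z₀ ∈ e.source := hf.mem_toOpenPartialHomeomorph_source
  have hinj : Set.InjOn (ff α) e.source := by
    have := e.injOn
    rwa [hf.toOpenPartialHomeomorph_coe] at this
  have hloc : ∀ᶠ z : ℂ in 𝓝 z₀, F z = (ff α z : OnePoint ℂ) := by
    have h1 : ∀ᶠ z in 𝓝[≠] z₀, (derivative E).eval z ≠ 0 := ev_ne (nhdsNE_le_cofinite z₀)
    rw [eventually_nhdsWithin_iff] at h1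
    filter_upwards [h1] with z hz
    by_cases h : z = z₀
    · rw [h, hv]
      congr 1
      unfold ff
      field_simp
      linear_combination -hGq
    · exact newton_eq hF (hz h)
  refine ⟨((↑) : ℂ → OnePoint ℂ) '' (e.source ∩ {z : ℂ | F z = (ff α z : OnePoint ℂ)}), ?_, ?_⟩
  · rw [OnePoint.nhds_coe_eq]
    exact image_mem_map (inter_mem (e.open_source.mem_nhds hs) hloc)
  · rintro _ ⟨z, ⟨hz1, hz2⟩, rfl⟩ _ ⟨w, ⟨hw1, hw2⟩, rfl⟩ h
    have hz3 : F z = (ff α z : OnePoint ℂ) := hz2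
    have hw3 : F w = (ff α w : OnePoint ℂ) := hw2
    rw [hz3, hw3] at h
    rw [hinj hz1 hw1 (OnePoint.coe_injective h)]

/-- the point at infinity is not mapped to `v ≠ 0` -/
theorem infty_ne {α : ℝ} {F : OnePoint ℂ → OnePoint ℂ} (hF : IsNewton E α F) {v : ℂ}
    (hv0 : v ≠ 0) : F OnePoint.infty ≠ (v : OnePoint ℂ) := by
  intro hv
  have hl : coclosedCompact ℂ ≤ cofinite := coclosedCompact_le_cofinite
  have h1 := tendsto_ff hF hl OnePoint.tendsto_coe_infty hv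
  have hinv : Tendsto (fun z : ℂ => z⁻¹) (coclosedCompact ℂ) (𝓝 0) := by
    rw [coclosedCompact_eq_cocompact, ← Metric.cobounded_eq_cocompact]
    exact tendsto_inv₀_cobounded
  have : NeBot (coclosedCompact ℂ) := by
    rw [coclosedCompact_eq_cocompact]
    infer_instance
  have hne0 : ∀ᶠ z in coclosedCompact ℂ, z ≠ 0 := by
    have := hl (Set.finite_singleton (0 : ℂ)).compl_mem_cofinite
    filter_upwards [this] with z hz
    simpa using hz
  have hfm : ∀ᶠ z in coclosedCompact ℂ, ff α z * nB z = z * nB z - α * nA z := by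
    filter_upwards [ev_ne hl] with z hz
    have := nB_ne hz
    unfold ff
    field_simp
  have h2 : Tendsto (fun z => ff α z * (z⁻¹ * (12 - 6 * z⁻¹ + 9 * z⁻¹ ^ 2))) (coclosedCompact ℂ)
      (𝓝 (v * (0 * (12 - 6 * 0 + 9 * 0 ^ 2)))) := by
    refine h1.mul (hinv.mul ?_)
    exact ((tendsto_const_nhds.sub (hinv.const_mul 6)).add ((hinv.pow 2).const_mul 9))
  have h3 : Tendsto (fun z : ℂ => ((12 - 2 * α : ℂ)) + (-6 + α) * z⁻¹ + (9 - 3 * α) * z⁻¹ ^ 2 +
      α * z⁻¹ ^ 3 - 2 * α * z⁻¹ ^ 4) (coclosedCompact ℂ)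
      (𝓝 ((12 - 2 * α : ℂ) + (-6 + α) * 0 + (9 - 3 * α) * 0 ^ 2 + α * 0 ^ 3 - 2 * α * 0 ^ 4)) :=
    ((((tendsto_const_nhds.add (hinv.const_mul _)).add ((hinv.pow 2).const_mul _)).add
      ((hinv.pow 3).const_mul _)).sub ((hinv.pow 4).const_mul _))
  have h4 := tendsto_nhds_unique (h2.congr' (by
    filter_upwards [hfm, hne0] with z hz hz0
    have e : ff α z * (z⁻¹ * (12 - 6 * z⁻¹ + 9 * z⁻¹ ^ 2)) = (ff α z * nB z) * z⁻¹ ^ 4 := by
      unfold nB
      field_simp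
      ring
    rw [e, hz]
    unfold nA nB
    field_simp
    ring)) h3
  have hα : (α : ℂ) = 6 := by
    linear_combination h4 / 2
  have h5 : Tendsto (fun z => ff α z * (12 - 6 * z⁻¹ + 9 * z⁻¹ ^ 2)) (coclosedCompact ℂ)
      (𝓝 (v * (12 - 6 * 0 + 9 * 0 ^ 2))) := by
    refine h1.mul ?_
    exact ((tendsto_const_nhds.sub (hinv.const_mul 6)).add ((hinv.pow 2).const_mul 9))
  have h6 : Tendsto (fun z : ℂ => -9 * z⁻¹ + 6 * z⁻¹ ^ 2 - 12 * z⁻¹ ^ 3) (coclosedCompact ℂ)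
      (𝓝 (-9 * 0 + 6 * 0 ^ 2 - 12 * 0 ^ 3)) :=
    ((hinv.const_mul _).add ((hinv.pow 2).const_mul _)).sub ((hinv.pow 3).const_mul _)
  have h7 := tendsto_nhds_unique (h5.congr' (by
    filter_upwards [hfm, hne0] with z hz hz0
    have e : ff α z * (12 - 6 * z⁻¹ + 9 * z⁻¹ ^ 2) = (ff α z * nB z) * z⁻¹ ^ 3 := by
      unfold nB
      field_simp
      ring
    rw [e, hz, hα]
    unfold nA nB
    field_simp
    ring)) h6
  apply hv0
  linear_combination h7 / 12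

/-- **No critical values near the real points `1 / 100 ≤ v₀ ≤ 1`.** -/
theorem no_crit {v₀ : ℝ} (hv : 1 / 100 ≤ v₀) (hv1 : v₀ ≤ 1) :
    ∀ᶠ v : ℂ in 𝓝 (v₀ : ℂ), ∀ α ∈ Set.Icc (0 : ℝ) 6, ∀ F, IsNewton E α F → ∀ z₀,
      F z₀ = (v : OnePoint ℂ) → ∃ U ∈ 𝓝 z₀, Set.InjOn F U := by
  have h0 : ∀ᶠ v in 𝓝 (v₀ : ℂ), v ≠ 0 := by
    refine continuousAt_id.eventually_ne ?_
    simp only [id]
    exact_mod_cast (by linarith : v₀ ≠ 0)
  filter_upwards [no_double_near hv hv1, h0] with v h1 h2 α hα F hF z₀ hz₀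
  induction z₀ using OnePoint.rec with
  | infty => exact absurd hz₀ (infty_ne hF h2)
  | coe z => exact inj_finite hF hz₀ (h1 α hα)

end Q73.Shadow
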