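import Pool.Agent.Q73.Sh.Stay

/-!
# Real points outside the shadow of a real polynomial: the Taylor coefficients are positive
-/

set_option autoImplicit false

open Polynomial Filter Topology Metric

namespace Q73.Shadow

theorem iteratedDeriv_eval (q : ℂ[X]) (m : ℕ) :
    iteratedDeriv m (fun z => q.eval z) = fun z => (derivative^[m] q).eval z := by
  induction m generalizing q with
  | zero => simp
  | succ m ih =>
    have e : deriv (fun z => q.eval z) = fun z => (derivative q).eval z := by
      funext z
      exact q.deriv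
    rw [iteratedDeriv_succ', e, ih, Function.iterate_succ_apply]

/-- Cauchy's estimate -/
theorem cauchy_bound (P : ℂ[X]) (n m : ℕ) (x : ℂ) {R M : ℝ} (hR : 0 < R)
    (hM : ∀ z ∈ sphere x R, ‖P.eval z‖ ≤ M) :
    ‖(Q P n m).eval x‖ ≤ m.factorial * M ^ n / R ^ m := by
  have h1 := Complex.norm_iteratedDeriv_le_of_forall_mem_sphere_norm_le (c := x) (R := R)
    (C := M ^ n) (f := fun z => (P ^ n).eval z) m hR
    ((P ^ n).differentiable.diffContOnCl) (fun z hz => by
      rw [eval_pow, norm_pow]
      exact pow_le_pow_left₀ (norm_nonneg _) (hM z hz) n)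
  rw [iteratedDeriv_eval] at h1
  exact h1

variable {p : ℝ[X]} {x : ℝ} {ρ : ℝ}

theorem Q_map (p : ℝ[X]) (n m : ℕ) (x : ℝ) :
    (Q (p.map Complex.ofRealHom) n m).eval (x : ℂ) = (((derivative^[m] (p ^ n)).eval x : ℝ) : ℂ) := by
  unfold Q
  rw [← Polynomial.map_pow, iterate_derivative_map]
  have := eval_map_apply (p := derivative^[m] (p ^ n)) (f := Complex.ofRealHom) x
  simpa using this

theorem rr_map (p : ℝ[X]) (n m : ℕ) (x : ℝ) :
    rr (p.map Complex.ofRealHom) (x : ℂ) n m =
      (((derivative^[m + 1] (p ^ n)).eval x / (n * (derivative^[m] (p ^ n)).eval x) : ℝ) : ℂ) := by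
  unfold rr
  rw [Q_map, Q_map]
  push_cast
  ring

/-- If there are no zeros near the real point `x`, then the derivatives of `p ^ n` at `x` of order
at most `a n` are positive for large `n`. -/
theorem deriv_pos (h : Free (p.map Complex.ofRealHom) (x : ℂ) ρ) (hρ : 0 < ρ)
    (hd : 1 ≤ p.natDegree) (hx0 : 0 < p.eval x) (hx1 : 0 < (derivative p).eval x)
    {D : Set ℂ} (hD : IsOpen D)
    (hb : Bornology.IsBounded D) (hu : (x : ℂ) ∈ D) {a : ℝ}
    (hbar : ∀ z ∈ frontier D, ∀ α ∈ Set.Icc (0:ℝ) a,
      (z - x) * (derivative (p.map Complex.ofRealHom)).eval z ≠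
        α * (p.map Complex.ofRealHom).eval z) :
    ∀ᶠ n : ℕ in atTop, ∀ m, m < n * p.natDegree → (m : ℝ) ≤ a * n →
      0 < (derivative^[m] (p ^ n)).eval x := by
  set P : ℂ[X] := p.map Complex.ofRealHom with hP
  have hdeg : P.natDegree = p.natDegree := natDegree_map _
  have hd' : 1 ≤ P.natDegree := by rw [hdeg]; exact hd
  obtain ⟨R0, hR0, hDR⟩ : ∃ R0 : ℝ, 0 < R0 ∧ D ⊆ ball (x : ℂ) R0 := by
    obtain ⟨R, hR⟩ := hb.subset_ball (x : ℂ)
    exact ⟨max R 1, by positivity, hR.trans (ball_subset_ball (le_max_left _ _))⟩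
  obtain ⟨δ, hδ, hlow⟩ := low h hρ hd' hR0
  set C : ℝ := 8 * P.natDegree / ρ ^ 2 with hC
  have hdR : (0 : ℝ) < P.natDegree := by exact_mod_cast hd'
  have hCpos : 0 < C := by positivity
  have hbig : ∀ᶠ n : ℕ in atTop, C / δ ^ 2 < n := tendsto_natCast_atTop_atTop.eventually_gt_atTop _
  filter_upwards [stay h hρ hd' hD hb hu hbar, hbig, eventually_ge_atTop 1] with n hstay hn hn1
  have hn' : (0 : ℝ) < n := by exact_mod_cast hn1
  set c : ℕ → ℝ := fun m => (derivative^[m] (p ^ n)).eval x with hc
  have hrr : ∀ m, rr P (x : ℂ) n m = ((c (m + 1) / (n * c m) : ℝ) : ℂ) := fun m => rr_map p n m x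
  have hrpos : ∀ m, m < n * p.natDegree → (m : ℝ) ≤ a * n → 0 < c (m + 1) / (n * c m) := by
    intro m
    induction m with
    | zero =>
      intro _ _
      have e : c 1 / (n * c 0) = (derivative p).eval x / p.eval x := by
        have h1 := rr_zero h hρ hn1
        rw [hrr 0] at h1
        have h2 : (derivative P).eval (x : ℂ) = (((derivative p).eval x : ℝ) : ℂ) := by
          have := Q_map p 1 1 x
          rw [Q_succ, Q_zero, pow_one, pow_one] at this
          exact this
        have h3 : P.eval (x : ℂ) = ((p.eval x : ℝ) : ℂ) := by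
          have := Q_map p 1 0 x
          rw [Q_zero, pow_one, pow_one] at this
          exact this
        rw [h2, h3, ← Complex.ofReal_div] at h1
        exact Complex.ofReal_injective h1
      rw [e]
      exact div_pos hx1 hx0
    | succ m ih =>
      intro hm hma
      have hma' : (m : ℝ) ≤ a * n := by
        refine le_trans ?_ hma
        push_cast
        linarith
      have h1 := ih (by omega) hma'
      have hm' : m < n * P.natDegree := by rw [hdeg]; omega
      have h2 := hlow n m hn1 hm' (hDR (hstay m hm' hma'))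
      have h3 := h.step hρ hn1 (m := m) (by rw [hdeg]; exact hm)
      rw [hrr, hrr] at h3
      rw [hrr] at h2
      rw [← Complex.ofReal_sub, Complex.norm_real, Complex.norm_real, Real.norm_eq_abs,
        Real.norm_eq_abs, abs_of_pos h1, ← hC] at h3
      rw [Complex.norm_real, Real.norm_eq_abs, abs_of_pos h1] at h2
      have h4 : |c (m + 1 + 1) / (n * c (m + 1)) - c (m + 1) / (n * c m)| * (n * δ) ≤ C := by
        refine le_trans ?_ h3
        gcongr
      have h5 : |c (m + 1 + 1) / (n * c (m + 1)) - c (m + 1) / (n * c m)| < δ := by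
        rw [← le_div_iff₀ (by positivity)] at h4
        refine lt_of_le_of_lt h4 ?_
        rw [div_lt_iff₀ (by positivity)]
        rw [div_lt_iff₀ (by positivity)] at hn
        nlinarith
      have h6 := (abs_lt.1 h5).1
      linarith
  intro m
  induction m with
  | zero =>
    intro _ _
    simp only [hc, Function.iterate_zero, id, eval_pow]
    positivity
  | succ m ih =>
    intro hm hma
    have hma' : (m : ℝ) ≤ a * n := by
      refine le_trans ?_ hma
      push_cast
      linarith
    have h1 := ih (by omega) hma'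
    have h2 := hrpos m (by omega) hma'
    have h3 : 0 < (n : ℝ) * c m := by positivity
    have h4 := mul_pos h2 h3
    rwa [div_mul_cancel₀ _ h3.ne'] at h4

/-- Taylor's formula -/
theorem eval_add_eq_real (q : ℝ[X]) (u h : ℝ) {d : ℕ} (hd : q.natDegree ≤ d) :
    q.eval (u + h) = ∑ k ∈ Finset.range (d + 1),
      (derivative^[k] q).eval u * (h ^ k / (k.factorial : ℝ)) := by
  rw [add_comm u h, ← taylor_eval, eval_eq_sum_range' (n := d + 1)
    (by rw [natDegree_taylor]; omega)]
  refine Finset.sum_congr rfl fun k _ => ?_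
  rw [taylor_coeff]
  have h1 := congrArg (fun f => (f q).eval u) (factorial_smul_hasseDeriv (R := ℝ) (k := k))
  beta_reduce at h1
  have hk : (k.factorial : ℝ) ≠ 0 := by exact_mod_cast k.factorial_ne_zero
  rw [← h1, LinearMap.smul_apply, nsmul_eq_mul, eval_mul, eval_natCast]
  field_simp

end Q73.Shadow
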