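import Pool.Agent.Q73.Sh.Basic

/-!
# The algebraic recursion of the ratios and its limit
-/

set_option autoImplicit false

open Polynomial Filter Topology Metric

namespace Q73.Shadow

variable {P : ℂ[X]} {u : ℂ} {ρ : ℝ}

/-- the coefficients `C(m,k) Q_{m-k}(u) / Q_m(u)` -/
noncomputable def aa (P : ℂ[X]) (u : ℂ) (n m k : ℕ) : ℂ :=
  (m.choose k : ℂ) * (Q P n (m - k)).eval u / (Q P n m).eval u

theorem ode (P : ℂ[X]) (n : ℕ) (hn : 1 ≤ n) :
    derivative (P ^ n) * P = (n : ℂ[X]) * (P ^ n * derivative P) := by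
  obtain ⟨k, rfl⟩ : ∃ k, n = k + 1 := ⟨n - 1, by omega⟩
  rw [derivative_pow, map_natCast, Nat.add_sub_cancel, pow_succ P k]
  ring

theorem sum_extend {m d : ℕ} (f : ℕ → ℂ) (h1 : ∀ k, m < k → f k = 0) (h2 : ∀ k, d < k → f k = 0) :
    ∑ k ∈ Finset.range (m + 1), f k = ∑ k ∈ Finset.range (d + 1), f k := by
  have e1 : ∑ k ∈ Finset.range (m + 1), f k = ∑ k ∈ Finset.range (max m d + 1), f k := by
    refine Finset.sum_subset (Finset.range_mono (by have := le_max_left m d; omega)) ?_
    intro k _ hk
    exact h1 k (by simp only [Finset.mem_range] at hk; omega)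
  have e2 : ∑ k ∈ Finset.range (d + 1), f k = ∑ k ∈ Finset.range (max m d + 1), f k := by
    refine Finset.sum_subset (Finset.range_mono (by have := le_max_right m d; omega)) ?_
    intro k _ hk
    exact h2 k (by simp only [Finset.mem_range] at hk; omega)
  rw [e1, e2]

/-- the recursion -/
theorem recursion (h : Free P u ρ) (hρ : 0 < ρ) {n m : ℕ} (hn : 1 ≤ n)
    (hm : m < n * P.natDegree) :
    ∑ k ∈ Finset.range (P.natDegree + 1),
        (derivative^[k] P).eval u * (aa P u n m k * rr P u n (m - k)) =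
      ∑ k ∈ Finset.range (P.natDegree + 1), (derivative^[k + 1] P).eval u * aa P u n m k := by
  have hnc : (n : ℂ) ≠ 0 := by exact_mod_cast (by omega : n ≠ 0)
  have hQ : (Q P n m).eval u ≠ 0 := h.eval_ne hρ hn hm.le
  have h0 := congrArg (fun q => (derivative^[m] q).eval u) (ode P n hn)
  beta_reduce at h0
  rw [show (n : ℂ[X]) * (P ^ n * derivative P) = C (n : ℂ) * (P ^ n * derivative P) by
    rw [map_natCast], iterate_derivative_C_mul, eval_mul, eval_C, iterate_derivative_mul,
    iterate_derivative_mul] at h0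
  rw [eval_finsetSum, eval_finsetSum] at h0
  have e1 : ∀ k ∈ Finset.range m.succ,
      (m.choose k • (derivative^[m - k] (derivative (P ^ n)) * derivative^[k] P)).eval u =
      (n * (Q P n m).eval u) *
        ((derivative^[k] P).eval u * (aa P u n m k * rr P u n (m - k))) := by
    intro k hk
    have hk' : m - k ≤ n * P.natDegree := by omega
    have hQk : (Q P n (m - k)).eval u ≠ 0 := h.eval_ne hρ hn hk'
    have e : derivative^[m - k] (derivative (P ^ n)) = Q P n (m - k + 1) := by
      unfold Q
      rw [← Function.iterate_succ_apply derivative (m - k) (P ^ n)]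
    rw [e, nsmul_eq_mul, eval_mul, eval_mul, eval_natCast]
    unfold aa rr
    field_simp
  have e2 : ∀ k ∈ Finset.range m.succ,
      (m.choose k • (derivative^[m - k] (P ^ n) * derivative^[k] (derivative P))).eval u =
      (Q P n m).eval u * ((derivative^[k + 1] P).eval u * aa P u n m k) := by
    intro k _
    have e : derivative^[k] (derivative P) = derivative^[k + 1] P := by
      rw [← Function.iterate_succ_apply]
    have e' : derivative^[m - k] (P ^ n) = Q P n (m - k) := rfl
    rw [e, e', nsmul_eq_mul, eval_mul, eval_mul, eval_natCast]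
    unfold aa
    field_simp
  rw [Finset.sum_congr rfl e1, Finset.sum_congr rfl e2, ← Finset.mul_sum, ← Finset.mul_sum,
    ← mul_assoc] at h0
  have h3 := mul_left_cancel₀ (mul_ne_zero hnc hQ) h0
  have hch : ∀ k, m < k → aa P u n m k = 0 := by
    intro k hk
    unfold aa
    rw [Nat.choose_eq_zero_of_lt hk]
    simp
  have hder : ∀ k, P.natDegree < k → derivative^[k] P = 0 := fun k hk =>
    iterate_derivative_eq_zero hk
  rw [Nat.succ_eq_add_one] at h3
  rw [sum_extend (m := m) (d := P.natDegree), sum_extend (m := m) (d := P.natDegree)] at h3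
  · exact h3
  · intro k hk; rw [hch k hk]; ring
  · intro k hk; rw [hder (k + 1) (by omega)]; simp
  · intro k hk; rw [hch k hk]; ring
  · intro k hk; rw [hder k hk]; simp

/-- the coefficients are products of the inverse ratios -/
theorem aa_eq (h : Free P u ρ) (hρ : 0 < ρ) {n m : ℕ} (hn : 1 ≤ n)
    (hm : m < n * P.natDegree) (k : ℕ) :
    aa P u n m k = ((m.choose k : ℂ) / (n : ℂ) ^ k) *
      ∏ j ∈ Finset.range k, (rr P u n (m - (j + 1)))⁻¹ := by
  have hnc : (n : ℂ) ≠ 0 := by exact_mod_cast (by omega : n ≠ 0)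
  rcases Nat.lt_or_ge m k with hk | hk
  · unfold aa
    rw [Nat.choose_eq_zero_of_lt hk]
    simp
  · have key : ∀ k, k ≤ m → (Q P n (m - k)).eval u / (Q P n m).eval u =
        (1 / (n : ℂ) ^ k) * ∏ j ∈ Finset.range k, (rr P u n (m - (j + 1)))⁻¹ := by
      intro k
      induction k with
      | zero =>
        intro _
        have := h.eval_ne hρ hn hm.le
        simp [this]
      | succ k ih =>
        intro hk
        have hQm := h.eval_ne hρ hn hm.le
        have hQk := h.eval_ne hρ hn (by omega : m - k ≤ n * P.natDegree)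
        have hQk1 := h.eval_ne hρ hn (by omega : m - (k + 1) ≤ n * P.natDegree)
        rw [Finset.prod_range_succ, ← mul_assoc, pow_succ]
        have e : (1 / ((n : ℂ) ^ k * n)) * ∏ j ∈ Finset.range k, (rr P u n (m - (j + 1)))⁻¹ =
            ((Q P n (m - k)).eval u / (Q P n m).eval u) / n := by
          rw [ih (by omega)]
          field_simp
        rw [e]
        have e2 : rr P u n (m - (k + 1)) =
            (Q P n (m - k)).eval u / (n * (Q P n (m - (k + 1))).eval u) := by
          unfold rr
          rw [show m - (k + 1) + 1 = m - k by omega]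
        rw [e2]
        field_simp
    unfold aa
    rw [mul_div_assoc, key k hk]
    ring

theorem choose_tendsto {ι : Type} {l : Filter ι} (n m : ι → ℕ)
    (hn : Tendsto (fun i => (n i : ℂ)⁻¹) l (𝓝 0)) {α : ℂ}
    (hα : Tendsto (fun i => (m i : ℂ) / n i) l (𝓝 α)) (k : ℕ) :
    Tendsto (fun i => ((m i).choose k : ℂ) / (n i : ℂ) ^ k) l (𝓝 (α ^ k / (k.factorial : ℂ))) := by
  have e : ∀ i, ((m i).choose k : ℂ) / (n i : ℂ) ^ k =
      (∏ j ∈ Finset.range k, ((m i : ℂ) / n i - j * (n i : ℂ)⁻¹)) / (k.factorial : ℂ) := by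
    intro i
    have hk : (k.factorial : ℂ) ≠ 0 := by exact_mod_cast k.factorial_ne_zero
    have h1 : ((m i).descFactorial k : ℂ) = (k.factorial : ℂ) * ((m i).choose k : ℂ) := by
      rw [Nat.descFactorial_eq_factorial_mul_choose]
      push_cast
      ring
    have h2 : ((m i).descFactorial k : ℂ) = ∏ j ∈ Finset.range k, ((m i : ℂ) - j) := by
      rw [← descPochhammer_eval_eq_descFactorial ℂ, descPochhammer_eval_eq_prod_range]
    have h3 : (∏ j ∈ Finset.range k, ((m i : ℂ) / n i - j * (n i : ℂ)⁻¹)) =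
        (∏ j ∈ Finset.range k, ((m i : ℂ) - j)) / (n i : ℂ) ^ k := by
      rw [show (∏ j ∈ Finset.range k, ((m i : ℂ) / n i - j * (n i : ℂ)⁻¹)) =
        ∏ j ∈ Finset.range k, (((m i : ℂ) - j) * (n i : ℂ)⁻¹) from
        Finset.prod_congr rfl fun j _ => by rw [sub_mul, div_eq_mul_inv],
        Finset.prod_mul_distrib, Finset.prod_const, Finset.card_range, inv_pow, div_eq_mul_inv]
    rw [h3, ← h2, h1]
    field_simp
  simp_rw [e]
  refine Tendsto.div_const ?_ _
  have h4 : Tendsto (fun i => ∏ j ∈ Finset.range k, ((m i : ℂ) / n i - j * (n i : ℂ)⁻¹)) l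
      (𝓝 (∏ _j ∈ Finset.range k, α)) := by
    refine tendsto_finsetProd _ fun j _ => ?_
    have := hα.sub (hn.const_mul (j : ℂ))
    simpa using this
  simpa using h4

/-- Taylor's formula with iterated derivatives -/
theorem eval_add_eq (P : ℂ[X]) (u h : ℂ) {d : ℕ} (hd : P.natDegree ≤ d) :
    P.eval (u + h) = ∑ k ∈ Finset.range (d + 1),
      (derivative^[k] P).eval u * (h ^ k / (k.factorial : ℂ)) := by
  rw [add_comm u h, ← taylor_eval, eval_eq_sum_range' (n := d + 1)
    (by rw [natDegree_taylor]; omega)]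
  refine Finset.sum_congr rfl fun k _ => ?_
  rw [taylor_coeff]
  have h1 := congrArg (fun f => (f P).eval u) (factorial_smul_hasseDeriv (R := ℂ) (k := k))
  beta_reduce at h1
  have hk : (k.factorial : ℂ) ≠ 0 := by exact_mod_cast k.factorial_ne_zero
  rw [← h1, LinearMap.smul_apply, nsmul_eq_mul, eval_mul, eval_natCast]
  field_simp

end Q73.Shadow
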