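import Pool.Agent.Q73.Sh.Exit

/-!
# The approximate saddle points stay in the domain
-/

set_option autoImplicit false

open Polynomial Filter Topology Metric

namespace Q73.Shadow

variable {P : ℂ[X]} {u : ℂ} {ρ : ℝ}

/-- lower bound for the ratios as long as the saddle points stay in a disc -/
theorem low (h : Free P u ρ) (hρ : 0 < ρ) (hd : 1 ≤ P.natDegree) {R0 : ℝ} (hR0 : 0 < R0) :
    ∃ δ : ℝ, 0 < δ ∧ ∀ n m, 1 ≤ n → m < n * P.natDegree → zz P u n m ∈ ball u R0 →
      δ ≤ ‖rr P u n m‖ := by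
  have hd' : (0 : ℝ) < P.natDegree := by exact_mod_cast hd
  set C : ℝ := 8 * P.natDegree / ρ ^ 2 with hC
  have hCpos : 0 < C := by positivity
  set r0 : ℂ := (derivative P).eval u / P.eval u with hr0
  have hr : r0 ≠ 0 := by
    have e : rr P u 1 0 = r0 := rr_zero h hρ le_rfl
    rw [← e]
    exact h.rr_ne hρ le_rfl (by omega)
  have hrp : 0 < ‖r0‖ := norm_pos_iff.2 hr
  set τ : ℝ := ‖r0‖ ^ 2 / (4 * C) with hτ
  have hτpos : 0 < τ := by positivity
  refine ⟨min (‖r0‖ / 2) (τ / R0), by positivity, fun n m hn hm hz => ?_⟩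
  rcases le_or_gt ((m : ℝ) / n) τ with h1 | h1
  · exact (min_le_left _ _).trans (start_le h hρ hd hr0 hr hC hn m hm h1)
  · refine (min_le_right _ _).trans ?_
    rw [mem_ball, dist_eq_norm] at hz
    unfold zz at hz
    rw [add_sub_cancel_left, norm_mul, norm_inv, norm_div, Complex.norm_natCast,
      Complex.norm_natCast] at hz
    have h3 : 0 < ‖rr P u n m‖ := norm_pos_iff.2 (h.rr_ne hρ hn hm)
    rw [← div_eq_mul_inv, div_lt_iff₀ h3] at hz
    rw [div_le_iff₀ hR0]
    linarith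

theorem no_exit (h : Free P u ρ) (hρ : 0 < ρ) (hd : 1 ≤ P.natDegree) {D : Set ℂ} (hD : IsOpen D)
    (hb : Bornology.IsBounded D) (hu : u ∈ D) {a : ℝ}
    (hbar : ∀ z ∈ frontier D, ∀ α ∈ Set.Icc (0:ℝ) a,
      (z - u) * (derivative P).eval z ≠ α * P.eval z) (N M : ℕ → ℕ)
    (hNt : Tendsto N atTop atTop) (hN1 : ∀ i, 1 ≤ N i) (hM1 : ∀ i, M i < N i * P.natDegree)
    (hMa : ∀ i, (M i : ℝ) ≤ a * N i) (hM2 : ∀ i, zz P u (N i) (M i) ∉ D)
    (hM3 : ∀ i m, m < M i → zz P u (N i) m ∈ D) : False := by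
  have hd' : (0 : ℝ) < P.natDegree := by exact_mod_cast hd
  obtain ⟨R0, hR0, hDR⟩ : ∃ R0 : ℝ, 0 < R0 ∧ D ⊆ ball u R0 := by
    obtain ⟨R, hR⟩ := hb.subset_ball u
    exact ⟨max R 1, by positivity, hR.trans (ball_subset_ball (le_max_left _ _))⟩
  have hNpos : ∀ i, (0 : ℝ) < N i := fun i => by exact_mod_cast hN1 i
  have hM0 : ∀ i, 1 ≤ M i := by
    intro i
    by_contra hc
    have h0 : M i = 0 := by omega
    apply hM2 i
    rw [h0]
    unfold zz
    simpa using hu
  obtain ⟨δ, hδ, hlow'⟩ := low h hρ hd hR0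
  have hlow : ∀ i m, m < M i → δ ≤ ‖rr P u (N i) m‖ := fun i m hm =>
    hlow' (N i) m (hN1 i) (hm.trans (hM1 i)) (hDR (hM3 i m hm))
  set C : ℝ := 8 * P.natDegree / ρ ^ 2 with hC
  have hCpos : 0 < C := by positivity
  -- steps
  have hstep : ∀ i j, ‖rr P u (N i) (M i - j) - rr P u (N i) (M i - (j + 1))‖ ≤
      C / δ * (N i : ℝ)⁻¹ := by
    intro i j
    have hNi := hNpos i
    rcases Nat.lt_or_ge j (M i) with hj | hj
    · have e : M i - j = (M i - (j + 1)) + 1 := by omega
      have h1 := h.step hρ (hN1 i) (m := M i - (j + 1)) (by have := hM1 i; omega)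
      rw [← e, ← hC] at h1
      have h2 := hlow i (M i - (j + 1)) (by omega)
      have h3 : ‖rr P u (N i) (M i - j) - rr P u (N i) (M i - (j + 1))‖ * (N i * δ) ≤ C := by
        refine le_trans ?_ h1
        gcongr
      rw [← le_div_iff₀ (by positivity)] at h3
      refine h3.trans (le_of_eq ?_)
      field_simp
    · rw [show M i - j = 0 by omega, show M i - (j + 1) = 0 by omega, sub_self, norm_zero]
      positivity
  -- compactness
  have hK : IsCompact (Set.Icc (0 : ℝ) a ×ˢ closedBall (0 : ℂ) (P.natDegree / ρ)) :=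
    isCompact_Icc.prod (isCompact_closedBall _ _)
  obtain ⟨⟨α, r⟩, hαr, φ, hφ, hlim⟩ := hK.tendsto_subseq
    (x := fun i => ((M i : ℝ) / N i, rr P u (N i) (M i - 1))) (by
      intro i
      refine ⟨⟨by positivity, ?_⟩, ?_⟩
      · rw [div_le_iff₀ (hNpos i)]
        exact hMa i
      · rw [mem_closedBall_zero_iff]
        have h1 := h.norm_rr_le hρ (hN1 i) (m := M i - 1) (by have := hM1 i; omega)
        refine h1.trans ?_
        have h2 : ((N i * P.natDegree - (M i - 1) : ℕ) : ℝ) ≤ N i * P.natDegree := by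
          have : N i * P.natDegree - (M i - 1) ≤ N i * P.natDegree := Nat.sub_le _ _
          exact_mod_cast this
        rw [div_le_div_iff₀ (by have := hNpos i; positivity) hρ]
        nlinarith [mul_le_mul_of_nonneg_right h2 hρ.le])
  have hlim1 : Tendsto (fun i => (M (φ i) : ℝ) / N (φ i)) atTop (𝓝 α) :=
    (continuous_fst.tendsto _).comp hlim
  have hlim2 : Tendsto (fun i => rr P u (N (φ i)) (M (φ i) - 1)) atTop (𝓝 r) :=
    (continuous_snd.tendsto _).comp hlim
  have hNinv : Tendsto (fun i => ((N (φ i) : ℝ))⁻¹) atTop (𝓝 0) :=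
    tendsto_inv_atTop_zero.comp (tendsto_natCast_atTop_atTop.comp (hNt.comp hφ.tendsto_atTop))
  have hrδ : δ ≤ ‖r‖ := by
    refine ge_of_tendsto' hlim2.norm fun i => ?_
    exact hlow _ _ (by have := hM0 (φ i); omega)
  have hr_ne : r ≠ 0 := by
    rintro rfl
    rw [norm_zero] at hrδ
    linarith
  have hdiff : ∀ j, Tendsto (fun i => rr P u (N (φ i)) (M (φ i) - j) -
      rr P u (N (φ i)) (M (φ i) - (j + 1))) atTop (𝓝 0) := by
    intro j
    refine squeeze_zero_norm (fun i => hstep (φ i) j) ?_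
    simpa using hNinv.const_mul (C / δ)
  have hall : ∀ j, Tendsto (fun i => rr P u (N (φ i)) (M (φ i) - (j + 1))) atTop (𝓝 r) := by
    intro j
    induction j with
    | zero => simpa using hlim2
    | succ j ih =>
      have := ih.sub (hdiff (j + 1))
      simpa using this
  have hall' : ∀ j, Tendsto (fun i => rr P u (N (φ i)) (M (φ i) - j)) atTop (𝓝 r) := by
    intro j
    have := (hall j).add (hdiff j)
    simpa using this
  have hNinvC : Tendsto (fun i => ((N (φ i) : ℂ))⁻¹) atTop (𝓝 0) := by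
    have := (Complex.continuous_ofReal.tendsto 0).comp hNinv
    simpa [Function.comp_def] using this
  have hαC : Tendsto (fun i => (M (φ i) : ℂ) / N (φ i)) atTop (𝓝 (α : ℂ)) := by
    have := (Complex.continuous_ofReal.tendsto α).comp hlim1
    simpa [Function.comp_def] using this
  have haa : ∀ k, Tendsto (fun i => aa P u (N (φ i)) (M (φ i)) k) atTop
      (𝓝 ((α : ℂ) ^ k / (k.factorial : ℂ) * (r⁻¹) ^ k)) := by
    intro k
    have e : ∀ i, aa P u (N (φ i)) (M (φ i)) k =
        (((M (φ i)).choose k : ℂ) / (N (φ i) : ℂ) ^ k) *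
        ∏ j ∈ Finset.range k, (rr P u (N (φ i)) (M (φ i) - (j + 1)))⁻¹ :=
      fun i => aa_eq h hρ (hN1 _) (hM1 _) k
    simp_rw [e]
    refine (choose_tendsto _ _ hNinvC hαC k).mul ?_
    have h1 : Tendsto (fun i => ∏ j ∈ Finset.range k,
        (rr P u (N (φ i)) (M (φ i) - (j + 1)))⁻¹) atTop (𝓝 (∏ _j ∈ Finset.range k, r⁻¹)) :=
      tendsto_finsetProd _ fun j _ => (hall j).inv₀ hr_ne
    simpa using h1
  -- the limit relation
  set z : ℂ := u + (α : ℂ) * r⁻¹ with hz
  have hrel : r * P.eval z = (derivative P).eval z := by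
    have h1 : Tendsto (fun i => ∑ k ∈ Finset.range (P.natDegree + 1),
        (derivative^[k] P).eval u * (aa P u (N (φ i)) (M (φ i)) k *
          rr P u (N (φ i)) (M (φ i) - k))) atTop
        (𝓝 (∑ k ∈ Finset.range (P.natDegree + 1), (derivative^[k] P).eval u *
          ((α : ℂ) ^ k / (k.factorial : ℂ) * (r⁻¹) ^ k * r))) :=
      tendsto_finsetSum _ fun k _ => ((haa k).mul (hall' k)).const_mul _
    have h2 : Tendsto (fun i => ∑ k ∈ Finset.range (P.natDegree + 1),
        (derivative^[k + 1] P).eval u * aa P u (N (φ i)) (M (φ i)) k) atTop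
        (𝓝 (∑ k ∈ Finset.range (P.natDegree + 1), (derivative^[k + 1] P).eval u *
          ((α : ℂ) ^ k / (k.factorial : ℂ) * (r⁻¹) ^ k))) :=
      tendsto_finsetSum _ fun k _ => (haa k).const_mul _
    have h3 := tendsto_nhds_unique (h1.congr fun i => recursion h hρ (hN1 _) (hM1 _)) h2
    have e1 := eval_add_eq P u ((α : ℂ) * r⁻¹) le_rfl
    have e2 := eval_add_eq (derivative P) u ((α : ℂ) * r⁻¹) (d := P.natDegree)
      ((natDegree_derivative_le P).trans (Nat.sub_le _ _))
    rw [hz, e1, e2, Finset.mul_sum]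
    convert h3 using 2
    · rw [mul_pow]; ring
    · rw [mul_pow, Function.iterate_succ_apply]; ring
  -- the limit point is on the frontier
  have hzlim : ∀ j, j ≤ 1 → Tendsto (fun i => zz P u (N (φ i)) (M (φ i) - j)) atTop (𝓝 z) := by
    intro j hj
    unfold zz
    refine Tendsto.const_add u (Tendsto.mul ?_ ((hall' j).inv₀ hr_ne))
    have e : ∀ i, ((M (φ i) - j : ℕ) : ℂ) / N (φ i) =
        (M (φ i) : ℂ) / N (φ i) - j * ((N (φ i) : ℂ))⁻¹ := by
      intro i
      have := hM0 (φ i)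
      rw [Nat.cast_sub (by omega), sub_div, div_eq_mul_inv (j : ℂ)]
    simp_rw [e]
    simpa using hαC.sub (hNinvC.const_mul (j : ℂ))
  have hfr : z ∈ frontier D := by
    rw [frontier, hD.interior_eq]
    refine ⟨?_, ?_⟩
    · refine mem_closure_of_tendsto (hzlim 1 le_rfl) (Eventually.of_forall fun i => ?_)
      exact hM3 _ _ (by have := hM0 (φ i); omega)
    · have h1 : z ∈ closure Dᶜ := by
        refine mem_closure_of_tendsto (hzlim 0 zero_le_one) (Eventually.of_forall fun i => ?_)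
        simpa using hM2 (φ i)
      rw [hD.isClosed_compl.closure_eq] at h1
      exact h1
  refine hbar z hfr α hαr.1 ?_
  rw [← hrel, hz]
  field_simp
  ring

/-- The approximate saddle points stay in the domain for all `m ≤ a n`, `n` large. -/
theorem stay (h : Free P u ρ) (hρ : 0 < ρ) (hd : 1 ≤ P.natDegree) {D : Set ℂ} (hD : IsOpen D)
    (hb : Bornology.IsBounded D) (hu : u ∈ D) {a : ℝ}
    (hbar : ∀ z ∈ frontier D, ∀ α ∈ Set.Icc (0:ℝ) a,
      (z - u) * (derivative P).eval z ≠ α * P.eval z) :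
    ∀ᶠ n : ℕ in atTop, ∀ m, m < n * P.natDegree → (m : ℝ) ≤ a * n → zz P u n m ∈ D := by
  by_contra hcon
  rw [not_eventually] at hcon
  have hcon2 : ∃ᶠ n : ℕ in atTop, 1 ≤ n ∧ ∃ m, m < n * P.natDegree ∧ (m : ℝ) ≤ a * n ∧
      zz P u n m ∉ D := by
    refine (hcon.and_eventually (eventually_ge_atTop 1)).mono ?_
    rintro n ⟨h1, h2⟩
    push Not at h1
    obtain ⟨m, h3, h4, h5⟩ := h1
    exact ⟨h2, m, h3, h4, h5⟩
  obtain ⟨N, hN, hN2⟩ := extraction_of_frequently_atTop hcon2
  classical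
  have hex : ∀ i, ∃ m, m < N i * P.natDegree ∧ (m : ℝ) ≤ a * N i ∧ zz P u (N i) m ∉ D :=
    fun i => (hN2 i).2
  refine no_exit h hρ hd hD hb hu hbar N (fun i => Nat.find (hex i)) hN.tendsto_atTop
    (fun i => (hN2 i).1) (fun i => (Nat.find_spec (hex i)).1)
    (fun i => (Nat.find_spec (hex i)).2.1) (fun i => (Nat.find_spec (hex i)).2.2) ?_
  intro i m hm
  by_contra hc
  have h1 := (Nat.find_spec (hex i))
  exact Nat.find_min (hex i) hm ⟨hm.trans h1.1, le_trans (by exact_mod_cast hm.le) h1.2.1, hc⟩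

end Q73.Shadow
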